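import Pool.Agent.L7h77.FA.Stm
import Pool.Agent.H241R3.FV.TCover
import Pool.Agent.H241R3.FV.TCoverT
import Pool.Agent.H241R3.FV.TGen
import Pool.Agent.H241R3.FV.TEven
import Pool.Agent.H241R3.FV.TParity

/-! [FA-CV] of project FA (helper77): covering. -/

set_option autoImplicit false
set_option linter.unusedVariables false

open MeasureTheory Metric Set Filter Topology InnerProductGeometry

namespace Pool.Agent.L7h22.FA

open Pool.Agent.H241R3.FV (E Sph sig Fill)
open Pool.Agent.L7h77.FA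

theorem nsph {n : ℕ} (θ : Sph n) : ‖(θ : E n)‖ = 1 := by
  have := θ.2
  rwa [mem_sphere_zero_iff_norm] at this

/-- the chord is at most the arc -/
theorem chord_le {n : ℕ} (p p' : Sph n) : ‖(p : E n) - p'‖ ≤ angle (p : E n) (p' : E n) := by
  have h1 : ‖(p : E n) - p'‖ ^ 2 = 2 - 2 * Real.cos (angle (p : E n) (p' : E n)) := by
    rw [norm_sub_sq_real, InnerProductGeometry.cos_angle, nsph, nsph]
    ring
  have h2 : 1 - angle (p : E n) (p' : E n) ^ 2 / 2 ≤ Real.cos (angle (p : E n) (p' : E n)) :=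
    Real.one_sub_sq_div_two_le_cos
  have h3 := InnerProductGeometry.angle_nonneg (p : E n) (p' : E n)
  exact abs_le_of_sq_le_sq' (by linarith) h3 |>.2

/-- covering by a Lipschitz map which is the identity on the boundary -/
theorem cover1 {d : ℕ} (hd : 1 ≤ d) {M : Type} [MetricSpace M] [CompactSpace M] (S : Fill d M)
    (hS : S.NonShort) (ht : S.Triangulated ∨ S.NoRetraction) (Φ : M → E (d + 1)) (K : ℝ)
    (hK : ∀ q q', ‖Φ q - Φ q'‖ ≤ K * dist q q') (hb : ∀ p, Φ (S.bd p) = (p : E (d + 1))) :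
    ball (0 : E (d + 1)) 1 ⊆ range Φ := by
  have hΦc : Continuous Φ := by
    have : LipschitzWith (Real.toNNReal |K|) Φ := by
      refine LipschitzWith.of_dist_le_mul fun q q' => ?_
      rw [dist_eq_norm, Real.coe_toNNReal _ (abs_nonneg K)]
      exact (hK q q').trans (mul_le_mul_of_nonneg_right (le_abs_self K) dist_nonneg)
    exact this.continuous
  have hb' : ∀ p, Φ (S.bd p) = (1 : ℝ) • (p : E (d + 1)) := fun p => by rw [hb, one_smul]
  rcases ht with htri | hno
  · exact Pool.Agent.H241R3.FV.TCoverT.taskCoverT Pool.Agent.H241R3.FV.TGen.taskGen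
      Pool.Agent.H241R3.FV.TParity.taskParity Pool.Agent.H241R3.FV.TEven.taskEven d hd M S.bd hS htri Φ 1 K
      one_pos hΦc (fun q q' => by rw [mul_comm]; exact hK q q') hb'
  · exact Pool.Agent.H241R3.FV.TCover.taskCover (d + 1) (Nat.succ_pos d) M S.bd hno Φ 1 one_pos hΦc hb'

/-- [FA-CV] -/
theorem s_CV : S_CV := by
  intro d hd M _ _ S hS ht Φ K hK x m hm hx hmx hpos y hy
  rw [mem_ball_zero_iff] at hy
  have hE : Nonempty M := ⟨S.bd ⟨EuclideanSpace.single 0 1, by simp⟩⟩
  set K0 : ℝ := |K| with hK0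
  have hK0' : 0 ≤ K0 := abs_nonneg K
  have hΦ : ∀ q q', ‖Φ q - Φ q'‖ ≤ K0 * dist q q' := fun q q' =>
    (hK q q').trans (mul_le_mul_of_nonneg_right (le_abs_self K) dist_nonneg)
  -- the extension
  have hinj : Function.Injective S.bd := by
    intro p p' h
    have h1 := hS p p'
    rw [h, dist_self] at h1
    have h2 := (chord_le p p').trans h1
    have h3 := le_antisymm h2 (norm_nonneg _)
    exact Subtype.ext (sub_eq_zero.1 (norm_eq_zero.1 h3))
  set g : M → E (d + 1) := fun q => (Function.extend S.bd (fun p => (p : E (d + 1))) 0 q) - x - Φ q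
    with hg
  have hgb : ∀ p, g (S.bd p) = (p : E (d + 1)) - x - Φ (S.bd p) := by
    intro p
    simp only [hg]
    rw [hinj.extend_apply]
  have hgl : LipschitzOnWith (Real.toNNReal (1 + K0)) g (range S.bd) := by
    refine LipschitzOnWith.of_dist_le_mul ?_
    rintro _ ⟨p, rfl⟩ _ ⟨p', rfl⟩
    rw [Real.coe_toNNReal _ (by positivity), dist_eq_norm, hgb, hgb]
    have h1 : (p : E (d + 1)) - x - Φ (S.bd p) - ((p' : E (d + 1)) - x - Φ (S.bd p')) =
        ((p : E (d + 1)) - p') - (Φ (S.bd p) - Φ (S.bd p')) := by abel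
    rw [h1]
    refine (norm_sub_le _ _).trans ?_
    have h2 := (chord_le p p').trans (hS p p')
    have h3 := hΦ (S.bd p) (S.bd p')
    linarith
  obtain ⟨G, hG1, hG2⟩ := hgl.extend_finite_dimension
  obtain ⟨C, hC⟩ : ∃ C : ℝ, C = ((lipschitzExtensionConstant (E (d + 1)) *
    Real.toNNReal (1 + K0) : NNReal) : ℝ) := ⟨_, rfl⟩
  have hC0 : 0 ≤ C := by rw [hC]; exact NNReal.coe_nonneg _
  have hGl : ∀ q q', ‖G q - G q'‖ ≤ C * dist q q' := by
    intro q q'
    rw [← dist_eq_norm, hC]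
    exact hG1.dist_le_mul q q'
  have hGb : ∀ p, G (S.bd p) = (p : E (d + 1)) - x - Φ (S.bd p) := by
    intro p
    rw [← hG2 (mem_range_self p), hgb]
  obtain ⟨A, hA⟩ : ∃ A, ∀ q, ‖G q‖ ≤ A := by
    obtain ⟨A, hA⟩ := (isCompact_univ (X := M)).exists_bound_of_continuousOn hG1.continuous.continuousOn
    exact ⟨A, fun q => hA q (mem_univ q)⟩
  have hA0 : 0 ≤ A := (norm_nonneg _).trans (hA (Classical.arbitrary M))
  -- the cutoff
  set ε : ℝ := m / (8 * (K0 + C + 1)) with hε
  have hε0 : 0 < ε := by positivity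
  set χ : M → ℝ := fun q => max 0 (1 - infDist q (range S.bd) / ε) with hχ
  have hχ0 : ∀ q, 0 ≤ χ q := fun q => le_max_left _ _
  have hχ1 : ∀ q, χ q ≤ 1 := by
    intro q
    simp only [hχ]
    apply max_le zero_le_one
    have : 0 ≤ infDist q (range S.bd) / ε := div_nonneg infDist_nonneg hε0.le
    linarith
  have hχl : ∀ q q', |χ q - χ q'| ≤ ε⁻¹ * dist q q' := by
    intro q q'
    simp only [hχ]
    refine (abs_max_sub_max_le_max _ _ _ _).trans ?_
    rw [sub_self, abs_zero]
    apply max_le (by positivity)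
    have h1 : (1 - infDist q (range S.bd) / ε) - (1 - infDist q' (range S.bd) / ε) =
        ε⁻¹ * (infDist q' (range S.bd) - infDist q (range S.bd)) := by
      field_simp
      ring
    rw [h1, abs_mul, abs_of_pos (inv_pos.2 hε0)]
    apply mul_le_mul_of_nonneg_left _ (inv_pos.2 hε0).le
    have h2 := (lipschitz_infDist_pt (range S.bd)).dist_le_mul q' q
    rw [Real.dist_eq, dist_comm] at h2
    simpa using h2
  have hχb : ∀ p, χ (S.bd p) = 1 := by
    intro p
    simp only [hχ]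
    rw [infDist_zero_of_mem (mem_range_self p)]
    simp
  -- the map
  set Ψ : M → E (d + 1) := fun q => Φ q + χ q • G q + x with hΨ
  have hΨb : ∀ p, Ψ (S.bd p) = (p : E (d + 1)) := by
    intro p
    simp only [hΨ]
    rw [hχb, one_smul, hGb]
    abel
  have hΨl : ∀ q q', ‖Ψ q - Ψ q'‖ ≤ (K0 + (C + ε⁻¹ * A)) * dist q q' := by
    intro q q'
    have h1 : Ψ q - Ψ q' = (Φ q - Φ q') + (χ q • (G q - G q') + (χ q - χ q') • G q') := by
      simp only [hΨ]
      rw [smul_sub, sub_smul]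
      abel
    rw [h1]
    refine (norm_add_le _ _).trans ?_
    have h2 : ‖χ q • (G q - G q')‖ ≤ C * dist q q' := by
      rw [norm_smul, Real.norm_eq_abs, abs_of_nonneg (hχ0 q)]
      calc χ q * ‖G q - G q'‖ ≤ 1 * ‖G q - G q'‖ :=
            mul_le_mul_of_nonneg_right (hχ1 q) (norm_nonneg _)
        _ ≤ C * dist q q' := by rw [one_mul]; exact hGl q q'
    have h3 : ‖(χ q - χ q') • G q'‖ ≤ ε⁻¹ * A * dist q q' := by
      rw [norm_smul, Real.norm_eq_abs]
      calc |χ q - χ q'| * ‖G q'‖ ≤ (ε⁻¹ * dist q q') * A :=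
            mul_le_mul (hχl q q') (hA q') (norm_nonneg _) (by positivity)
        _ = _ := by ring
    have h4 := norm_add_le (χ q • (G q - G q')) ((χ q - χ q') • G q')
    have h5 := hΦ q q'
    linarith
  have hcov := cover1 hd S hS ht Ψ _ hΨl hΨb
  have hm1 : m ≤ 1 - ‖x‖ := by
    have h1 := norm_nonneg x
    nlinarith
  have hyx : y + x ∈ ball (0 : E (d + 1)) 1 := by
    rw [mem_ball_zero_iff]
    have h1 := norm_add_le y x
    linarith
  obtain ⟨q, hq⟩ := hcov hyx
  have hq' : Φ q + χ q • G q = y := by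
    simp only [hΨ] at hq
    exact add_right_cancel hq
  rcases (hχ0 q).eq_or_lt with h0 | h0
  · refine ⟨q, ?_⟩
    rw [← hq', ← h0, zero_smul, add_zero]
  · exfalso
    have h1 : infDist q (range S.bd) < ε := by
      simp only [hχ] at h0
      rw [lt_max_iff] at h0
      rcases h0 with h | h
      · exact absurd h (lt_irrefl _)
      · rw [sub_pos, div_lt_one hε0] at h
        exact h
    obtain ⟨b, ⟨p, rfl⟩, hp⟩ := (infDist_lt_iff ⟨_, mem_range_self ⟨EuclideanSpace.single 0 1, by simp⟩⟩).1 h1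
    set u : E (d + 1) := (p : E (d + 1)) - x with hu
    have hun : ‖u‖ ≤ 2 := by
      have h2 := norm_sub_le (p : E (d + 1)) x
      rw [nsph] at h2
      rw [hu]
      linarith
    have hun2 : m ≤ ‖u‖ ^ 2 := by
      have h2 := norm_sub_norm_le (p : E (d + 1)) x
      rw [nsph] at h2
      have h3 : 0 ≤ 1 - ‖x‖ := by linarith
      have h4 : (1 - ‖x‖) ^ 2 ≤ ‖u‖ ^ 2 := by
        rw [hu]
        exact pow_le_pow_left₀ h3 h2 2
      linarith
    -- the comparison
    have h2 : (inner ℝ y u : ℝ) = inner ℝ (Φ q - Φ (S.bd p)) u + χ q * inner ℝ (G q - G (S.bd p)) u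
        + ((1 - χ q) * inner ℝ (Φ (S.bd p)) u + χ q * ‖u‖ ^ 2) := by
      have h3 : (inner ℝ (G (S.bd p)) u : ℝ) = ‖u‖ ^ 2 - inner ℝ (Φ (S.bd p)) u := by
        rw [hGb, ← hu, inner_sub_left, real_inner_self_eq_norm_sq]
      rw [← hq', inner_add_left, real_inner_smul_left, inner_sub_left, inner_sub_left, h3]
      ring
    have h3 : -(K0 * ε * 2) ≤ inner ℝ (Φ q - Φ (S.bd p)) u := by
      have h4 := abs_real_inner_le_norm (Φ q - Φ (S.bd p)) u
      have h5 : ‖Φ q - Φ (S.bd p)‖ * ‖u‖ ≤ (K0 * ε) * 2 :=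
        mul_le_mul ((hΦ q _).trans (mul_le_mul_of_nonneg_left hp.le hK0')) hun (norm_nonneg _)
          (by positivity)
      exact (abs_le.1 (h4.trans h5)).1
    have h4 : -(C * ε * 2) ≤ χ q * inner ℝ (G q - G (S.bd p)) u := by
      have h4 := abs_real_inner_le_norm (G q - G (S.bd p)) u
      have h5 : ‖G q - G (S.bd p)‖ * ‖u‖ ≤ (C * ε) * 2 :=
        mul_le_mul ((hGl q _).trans (mul_le_mul_of_nonneg_left hp.le hC0)) hun (norm_nonneg _)
          (by positivity)
      have h6 : |χ q * (inner ℝ (G q - G (S.bd p)) u : ℝ)| ≤ C * ε * 2 := by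
        rw [abs_mul, abs_of_nonneg (hχ0 q)]
        calc χ q * |(inner ℝ (G q - G (S.bd p)) u : ℝ)| ≤ 1 * |(inner ℝ (G q - G (S.bd p)) u : ℝ)| :=
              mul_le_mul_of_nonneg_right (hχ1 q) (abs_nonneg _)
          _ ≤ C * ε * 2 := by rw [one_mul]; exact h4.trans h5
      exact (abs_le.1 h6).1
    have h5 : m ≤ (1 - χ q) * inner ℝ (Φ (S.bd p)) u + χ q * ‖u‖ ^ 2 := by
      have h6 := hpos p
      rw [← hu] at h6
      have h7 : 0 ≤ 1 - χ q := by linarith [hχ1 q]
      nlinarith [mul_le_mul_of_nonneg_left h6 h7, mul_le_mul_of_nonneg_left hun2 (hχ0 q)]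
    have h6 : (inner ℝ y u : ℝ) ≤ m / 4 * 2 := by
      refine (real_inner_le_norm y u).trans ?_
      exact mul_le_mul hy.le hun (norm_nonneg _) (by positivity)
    have h7 : (K0 + C) * ε * 2 < m / 4 + m / 8 := by
      have h8 : (K0 + C + 1) * ε = m / 8 := by
        rw [hε]
        field_simp
      have h9 : (K0 + C) * ε < m / 8 := by
        rw [← h8]
        nlinarith
      linarith
    nlinarith

end Pool.Agent.L7h22.FA
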