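import Pool.Agent.L7h22.FA.Par

/-! [FA-FR1] of project FA (helper77): the vector T in the new angle. -/

set_option autoImplicit false
set_option linter.unusedVariables false

open MeasureTheory Metric Set Filter Topology InnerProductGeometry

namespace Pool.Agent.L7h22.FA

open Pool.Agent.H241R3.FV (E Sph sig)
open Pool.Agent.L7h77.FA

instance sig_fin : IsFiniteMeasure (sig 2) :=
  inferInstanceAs (IsFiniteMeasure (volume : Measure (E 2)).toSphere)

theorem lip_cont {F : Sph 2 → ℝ} (hF : Lip1 F) : Continuous F := by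
  rw [continuous_iff_continuousAt]
  intro θ
  have h0 : (θ : E 2) ≠ 0 := by
    intro h
    have h1 : ‖(θ : E 2)‖ = 1 := by simpa using θ.2
    rw [h, norm_zero] at h1
    exact zero_ne_one h1
  have h1 : Tendsto (fun θ' : Sph 2 => angle (θ' : E 2) (θ : E 2)) (𝓝 θ) (𝓝 0) := by
    have h2 : ContinuousAt (fun θ' : Sph 2 => angle (θ' : E 2) (θ : E 2)) θ := by
      have h3 := InnerProductGeometry.continuousAt_angle (x := ((θ : E 2), (θ : E 2))) h0 h0
      have h4 : ContinuousAt (fun θ' : Sph 2 => ((θ' : E 2), (θ : E 2))) θ := by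
        apply Continuous.continuousAt
        fun_prop
      exact ContinuousAt.comp (f := fun θ' : Sph 2 => ((θ' : E 2), (θ : E 2))) h3 h4
    have h5 := h2.tendsto
    rwa [InnerProductGeometry.angle_self h0] at h5
  unfold ContinuousAt
  rw [tendsto_iff_dist_tendsto_zero]
  refine squeeze_zero (fun _ => dist_nonneg) (fun θ' => ?_) h1
  rw [Real.dist_eq]
  exact hF θ' θ

theorem norm_sph (θ : Sph 2) : ‖(θ : E 2)‖ = 1 := by simpa using θ.2

theorem inner_lt {x : E 2} (hx : ‖x‖ < 1) (θ : Sph 2) : |(inner ℝ x (θ : E 2) : ℝ)| < 1 := by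
  have h1 := abs_real_inner_le_norm x (θ : E 2)
  rw [norm_sph, mul_one] at h1
  linarith

theorem DD_pos {x : E 2} (hx : ‖x‖ < 1) (θ : Sph 2) : 0 < DD x (θ : E 2) := by
  unfold DD
  apply Real.sqrt_pos.2
  have h1 := inner_lt hx θ
  have h2 : (inner ℝ x (θ : E 2) : ℝ) ^ 2 < 1 := by
    rw [← sq_abs]
    nlinarith [abs_nonneg (inner ℝ x (θ : E 2) : ℝ)]
  linarith

theorem DD_cont (x : E 2) : Continuous (fun θ : Sph 2 => DD x (θ : E 2)) := by
  unfold DD
  fun_prop

theorem kernel_cont {F : Sph 2 → ℝ} (hF : Continuous F) {x : E 2} (hx : ‖x‖ < 1) :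
    Continuous (fun θ : Sph 2 => (F θ - Real.arcsin (inner ℝ x (θ : E 2))) / DD x (θ : E 2) ^ 3) := by
  apply Continuous.div
  · apply hF.sub
    apply Real.continuous_arcsin.comp
    fun_prop
  · exact (DD_cont x).pow 3
  · intro θ
    exact (pow_pos (DD_pos hx θ) 3).ne'

theorem integrable_sig {G : Type*} [NormedAddCommGroup G] {f : Sph 2 → G} (hf : Continuous f) :
    Integrable f (sig 2) :=
  hf.integrable_of_hasCompactSupport (HasCompactSupport.of_compactSpace f)

/-- the scalar product of `T` with a vector -/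
theorem inner_T {F : Sph 2 → ℝ} (hF : Continuous F) {x : E 2} (hx : ‖x‖ < 1) (v : E 2) :
    (inner ℝ (T F x) v : ℝ) = ∫ θ : Sph 2, (1 - ‖x‖ ^ 2) *
      ((F θ - Real.arcsin (inner ℝ x (θ : E 2))) / DD x (θ : E 2) ^ 3) *
        (inner ℝ (θ : E 2) v : ℝ) ∂(sig 2) := by
  have h1 : Integrable (fun θ : Sph 2 => ((F θ - Real.arcsin (inner ℝ x (θ : E 2))) /
      DD x (θ : E 2) ^ 3) • (θ : E 2)) (sig 2) :=
    integrable_sig ((kernel_cont hF hx).smul continuous_subtype_val)
  unfold T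
  rw [real_inner_smul_left, real_inner_comm, ← integral_inner h1 v, ← integral_const_mul]
  congr 1
  funext θ
  rw [real_inner_smul_right, real_inner_comm (θ : E 2) v]
  ring

/-- the scalar product of `T` with a vector, in the new angle -/
theorem s_FR1 : S_FR1 := by
  intro e e' he r h0 h1 F hF v
  have hFc := lip_cont hF
  have hre : ‖r • e‖ = r := by rw [norm_smul, he.1, mul_one, Real.norm_eq_abs, abs_of_nonneg h0]
  have hx : ‖r • e‖ < 1 := by rw [hre]; exact h1
  rw [inner_T hFc hx v]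
  obtain ⟨hp1, hp2, hp3⟩ := s_PAR e e' he r h0 h1
  have hG : Continuous (fun θ : Sph 2 => (1 - ‖r • e‖ ^ 2) *
      ((F θ - Real.arcsin (inner ℝ (r • e) (θ : E 2))) / DD (r • e) (θ : E 2) ^ 3) *
        (inner ℝ (θ : E 2) v : ℝ)) :=
    ((continuous_const).mul (kernel_cont hFc hx)).mul (by fun_prop)
  rw [hp2 _ hG]
  apply intervalIntegral.integral_congr
  intro w _
  simp only
  have hc := c_pos h0 h1
  have hcs := c_sq h0 h1
  have hD := den_pos h0 h1 w
  have hDs : 0 < √(1 - r ^ 2 * Real.sin w ^ 2) := Real.sqrt_pos.2 hD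
  have hDq : √(1 - r ^ 2 * Real.sin w ^ 2) ^ 2 = 1 - r ^ 2 * Real.sin w ^ 2 := Real.sq_sqrt hD.le
  have hs : Real.sin w ^ 2 + Real.cos w ^ 2 = 1 := Real.sin_sq_add_cos_sq w
  rw [pt_coe (hp1 w), hre]
  have he' : (inner ℝ e' e : ℝ) = 0 := by rw [real_inner_comm]; exact he.2.2
  have hin : (inner ℝ (r • e) (Th e e' r w) : ℝ) =
      r * Real.cos w / √(1 - r ^ 2 * Real.sin w ^ 2) := by
    unfold Th
    rw [real_inner_smul_left, real_inner_smul_right, inner_add_right, real_inner_smul_right,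
      real_inner_smul_right, real_inner_self_eq_norm_sq, he.1, he.2.2]
    field_simp
    ring
  have hinv : (inner ℝ (Th e e' r w) v : ℝ) = (√(1 - r ^ 2 * Real.sin w ^ 2))⁻¹ *
      ((inner ℝ v e : ℝ) * Real.cos w + √(1 - r ^ 2) * (inner ℝ v e' : ℝ) * Real.sin w) := by
    unfold Th
    rw [real_inner_smul_left, inner_add_left, real_inner_smul_left, real_inner_smul_left,
      real_inner_comm v e, real_inner_comm v e']
    ring
  have hDD : DD (r • e) (Th e e' r w) = √(1 - r ^ 2) / √(1 - r ^ 2 * Real.sin w ^ 2) := by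
    unfold DD
    rw [hin]
    have h3 : 1 - (r * Real.cos w / √(1 - r ^ 2 * Real.sin w ^ 2)) ^ 2 =
        (√(1 - r ^ 2) / √(1 - r ^ 2 * Real.sin w ^ 2)) ^ 2 := by
      rw [div_pow, div_pow, hDq, hcs, eq_div_iff hD.ne', sub_mul, div_mul_cancel₀ _ hD.ne']
      linear_combination (-r ^ 2) * hs
    rw [h3, Real.sqrt_sq (div_pos hc hDs).le]
  have harc : Real.arcsin (r * Real.cos w / √(1 - r ^ 2 * Real.sin w ^ 2)) = aa r w := by
    have hlt := inner_lt hx (pt (Th e e' r w))
    rw [pt_coe (hp1 w), hin] at hlt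
    rw [Real.arcsin_eq_arctan (abs_lt.1 hlt)]
    unfold aa
    congr 1
    have h3 : √(1 - (r * Real.cos w / √(1 - r ^ 2 * Real.sin w ^ 2)) ^ 2) =
        √(1 - r ^ 2) / √(1 - r ^ 2 * Real.sin w ^ 2) := by
      rw [← hDD]
      unfold DD
      rw [hin]
    rw [h3]
    field_simp
  rw [hDD, hinv, hin, harc]
  unfold rho
  have h4 : 1 - r ^ 2 = √(1 - r ^ 2) ^ 2 := hcs.symm
  rw [← hDq]
  set D := √(1 - r ^ 2 * Real.sin w ^ 2)
  rw [h4]
  rw [Real.sqrt_sq hc.le]
  set c := √(1 - r ^ 2)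
  field_simp
  rw [Real.sqrt_sq hDs.le]

end Pool.Agent.L7h22.FA
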