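import Pool.Agent.L7h22.FA.Lq

/-! [FA-FR2] of project FA (helper77): the derivative of T in the new angle. -/

set_option autoImplicit false
set_option linter.unusedVariables false

open MeasureTheory Metric Set Filter Topology InnerProductGeometry

namespace Pool.Agent.L7h22.FA

open Pool.Agent.H241R3.FV (E Sph sig)
open Pool.Agent.L7h77.FA

/-- the scalar factor of the derivative of the kernel -/
noncomputable def kf (F : Sph 2 → ℝ) (x : E 2) (θ : Sph 2) : ℝ :=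
  -(DD x (θ : E 2) ^ 4)⁻¹ + 3 * (inner ℝ x (θ : E 2) : ℝ) *
    (F θ - Real.arcsin (inner ℝ x (θ : E 2))) * (DD x (θ : E 2) ^ 5)⁻¹

/-- the derivative of the kernel -/
noncomputable def KK (F : Sph 2 → ℝ) (x : E 2) (θ : Sph 2) : E 2 →L[ℝ] E 2 :=
  (kf F x θ) • (innerSL ℝ (θ : E 2)).smulRight (θ : E 2)

theorem KK_apply (F : Sph 2 → ℝ) (x : E 2) (θ : Sph 2) (v : E 2) :
    KK F x θ v = (kf F x θ * (inner ℝ (θ : E 2) v : ℝ)) • (θ : E 2) := by
  unfold KK
  rw [_root_.smul_apply, ContinuousLinearMap.smulRight_apply, innerSL_apply_apply,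
    smul_smul]

theorem g_deriv (y a : ℝ) (ha : |a| < 1) :
    HasDerivAt (fun a => (y - Real.arcsin a) / √(1 - a ^ 2) ^ 3)
      (-(√(1 - a ^ 2) ^ 4)⁻¹ + 3 * a * (y - Real.arcsin a) * (√(1 - a ^ 2) ^ 5)⁻¹) a := by
  obtain ⟨h1, h2⟩ := abs_lt.1 ha
  have h3 : 0 < 1 - a ^ 2 := by nlinarith
  have hs : 0 < √(1 - a ^ 2) := Real.sqrt_pos.2 h3
  have hA := (Real.hasDerivAt_arcsin h1.ne' h2.ne).const_sub y
  have hB : HasDerivAt (fun a : ℝ => 1 - a ^ 2) (-((2 : ℕ) * a ^ (2 - 1))) a :=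
    (hasDerivAt_pow 2 a).const_sub 1
  have hC := (hB.sqrt h3.ne').pow 3
  have hD := hA.div hC (pow_pos hs 3).ne'
  convert! hD using 1
  simp only [Pi.pow_apply]
  set s := √(1 - a ^ 2)
  field_simp
  push_cast
  ring

theorem kernel_deriv (F : Sph 2 → ℝ) (θ : Sph 2) {x : E 2} (hx : ‖x‖ < 1) :
    HasFDerivAt (fun x : E 2 => ((F θ - Real.arcsin (inner ℝ x (θ : E 2))) /
      DD x (θ : E 2) ^ 3) • (θ : E 2)) (KK F x θ) x := by
  have h1 : HasFDerivAt (fun x : E 2 => (inner ℝ x (θ : E 2) : ℝ)) (innerSL ℝ (θ : E 2)) x := by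
    have h2 : (fun x : E 2 => (inner ℝ x (θ : E 2) : ℝ)) = fun x => innerSL ℝ (θ : E 2) x := by
      funext x
      rw [innerSL_apply_apply, real_inner_comm]
    rw [h2]
    exact (innerSL ℝ (θ : E 2)).hasFDerivAt
  have h3 := (g_deriv (F θ) (inner ℝ x (θ : E 2)) (inner_lt hx θ)).comp_hasFDerivAt x h1
  have h4 := h3.smul_const (θ : E 2)
  have h5 : KK F x θ = ((-(√(1 - (inner ℝ x (θ : E 2) : ℝ) ^ 2) ^ 4)⁻¹ +
      3 * (inner ℝ x (θ : E 2) : ℝ) * (F θ - Real.arcsin (inner ℝ x (θ : E 2))) *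
        (√(1 - (inner ℝ x (θ : E 2) : ℝ) ^ 2) ^ 5)⁻¹) • innerSL ℝ (θ : E 2)).smulRight (θ : E 2) := by
    apply ContinuousLinearMap.ext
    intro v
    rw [KK_apply, ContinuousLinearMap.smulRight_apply, _root_.smul_apply,
      innerSL_apply_apply, smul_eq_mul]
    rfl
  rw [h5]
  exact h4

theorem kf_cont {F : Sph 2 → ℝ} (hF : Continuous F) {x : E 2} (hx : ‖x‖ < 1) :
    Continuous (kf F x) := by
  unfold kf
  apply Continuous.add
  · exact (((DD_cont x).pow 4).inv₀ (fun θ => (pow_pos (DD_pos hx θ) 4).ne')).neg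
  · apply Continuous.mul
    · apply Continuous.mul
      · fun_prop
      · exact hF.sub (Real.continuous_arcsin.comp (by fun_prop))
    · exact ((DD_cont x).pow 5).inv₀ (fun θ => (pow_pos (DD_pos hx θ) 5).ne')

theorem KK_cont {F : Sph 2 → ℝ} (hF : Continuous F) {x : E 2} (hx : ‖x‖ < 1) :
    Continuous (KK F x) := by
  rw [continuous_clm_apply]
  intro v
  simp only [KK_apply]
  exact ((kf_cont hF hx).mul (by fun_prop)).smul continuous_subtype_val

theorem int_deriv {F : Sph 2 → ℝ} (hF : Continuous F) {x : E 2} (hx : ‖x‖ < 1) :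
    HasFDerivAt (fun x : E 2 => ∫ θ : Sph 2, ((F θ - Real.arcsin (inner ℝ x (θ : E 2))) /
      DD x (θ : E 2) ^ 3) • (θ : E 2) ∂(sig 2)) (∫ θ : Sph 2, KK F x θ ∂(sig 2)) x := by
  obtain ⟨C, hC⟩ : ∃ C, ∀ θ, |F θ| ≤ C := by
    obtain ⟨C, hC⟩ := (isCompact_univ (X := Sph 2)).exists_bound_of_continuousOn hF.continuousOn
    exact ⟨C, fun θ => hC θ (mem_univ θ)⟩
  have hC0 : 0 ≤ C := (abs_nonneg _).trans (hC ⟨EuclideanSpace.single 0 1, by simp⟩)
  obtain ⟨ρ, hρ1, hρ2⟩ := exists_between hx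
  have hρ0 : 0 ≤ ρ := (norm_nonneg x).trans hρ1.le
  have hmem : ball (0 : E 2) ρ ∈ 𝓝 x := isOpen_ball.mem_nhds (by simpa using hρ1)
  have hlow : ∀ y : E 2, ‖y‖ < ρ → ∀ θ : Sph 2, √(1 - ρ ^ 2) ≤ DD y (θ : E 2) := by
    intro y hy θ
    unfold DD
    apply Real.sqrt_le_sqrt
    have h1 := abs_real_inner_le_norm y (θ : E 2)
    rw [norm_sph, mul_one] at h1
    have h2 : (inner ℝ y (θ : E 2) : ℝ) ^ 2 ≤ ρ ^ 2 := by
      rw [← sq_abs]
      exact pow_le_pow_left₀ (abs_nonneg _) (h1.trans hy.le) 2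
    linarith
  have hs : 0 < √(1 - ρ ^ 2) := Real.sqrt_pos.2 (by nlinarith)
  apply hasFDerivAt_integral_of_dominated_of_fderiv_le
    (bound := fun _ => (√(1 - ρ ^ 2) ^ 4)⁻¹ + 3 * 1 * (C + Real.pi / 2) * (√(1 - ρ ^ 2) ^ 5)⁻¹) hmem
  · filter_upwards [hmem] with y hy
    rw [mem_ball_zero_iff] at hy
    exact (((kernel_cont hF (hy.trans hρ2)).smul continuous_subtype_val)).aestronglyMeasurable
  · exact integrable_sig ((kernel_cont hF hx).smul continuous_subtype_val)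
  · exact (KK_cont hF hx).aestronglyMeasurable
  · filter_upwards with θ
    intro y hy
    rw [mem_ball_zero_iff] at hy
    have hl := hlow y hy θ
    have hy1 := hy.trans hρ2
    have hin : |(inner ℝ y (θ : E 2) : ℝ)| ≤ 1 := (inner_lt hy1 θ).le
    have h1 := DD_pos hy1 θ
    have h4 : (DD y (θ : E 2) ^ 4)⁻¹ ≤ (√(1 - ρ ^ 2) ^ 4)⁻¹ :=
      inv_anti₀ (by positivity) (pow_le_pow_left₀ hs.le hl 4)
    have h5 : (DD y (θ : E 2) ^ 5)⁻¹ ≤ (√(1 - ρ ^ 2) ^ 5)⁻¹ :=
      inv_anti₀ (by positivity) (pow_le_pow_left₀ hs.le hl 5)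
    have h6 : |F θ - Real.arcsin (inner ℝ y (θ : E 2))| ≤ C + Real.pi / 2 := by
      refine (abs_sub _ _).trans (add_le_add (hC θ) ?_)
      rw [abs_le]
      exact ⟨Real.neg_pi_div_two_le_arcsin _, Real.arcsin_le_pi_div_two _⟩
    have h7 : |kf F y θ| ≤ (√(1 - ρ ^ 2) ^ 4)⁻¹ +
        3 * 1 * (C + Real.pi / 2) * (√(1 - ρ ^ 2) ^ 5)⁻¹ := by
      unfold kf
      refine (abs_add_le _ _).trans (add_le_add ?_ ?_)
      · rw [abs_neg, abs_of_pos (by positivity)]
        exact h4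
      · rw [abs_mul, abs_mul, abs_mul, abs_of_pos (show (0 : ℝ) < 3 by norm_num),
          abs_of_pos (show 0 < (DD y (θ : E 2) ^ 5)⁻¹ by positivity)]
        apply mul_le_mul _ h5 (by positivity) (by positivity)
        apply mul_le_mul _ h6 (abs_nonneg _) (by positivity)
        exact mul_le_mul_of_nonneg_left hin (by norm_num)
    refine ContinuousLinearMap.opNorm_le_bound _ ((abs_nonneg _).trans h7) (fun v => ?_)
    rw [KK_apply, norm_smul, norm_sph, mul_one, norm_mul, Real.norm_eq_abs, Real.norm_eq_abs]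
    apply mul_le_mul h7 _ (abs_nonneg _) ((abs_nonneg _).trans h7)
    have h8 := abs_real_inner_le_norm (θ : E 2) v
    rwa [norm_sph, one_mul] at h8
  · exact integrable_const _
  · filter_upwards with θ
    intro y hy
    rw [mem_ball_zero_iff] at hy
    exact kernel_deriv F θ (hy.trans hρ2)

theorem T_deriv {F : Sph 2 → ℝ} (hF : Continuous F) {x : E 2} (hx : ‖x‖ < 1) :
    ∃ L : E 2 →L[ℝ] E 2, HasFDerivAt (T F) L x ∧ ∀ v v' : E 2,
      (inner ℝ (L v') v : ℝ) = (∫ θ : Sph 2, (1 - ‖x‖ ^ 2) * (kf F x θ *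
        (inner ℝ (θ : E 2) v' : ℝ) * (inner ℝ (θ : E 2) v : ℝ)) ∂(sig 2)) -
        2 * (inner ℝ x v' : ℝ) * ((inner ℝ (T F x) v : ℝ) / (1 - ‖x‖ ^ 2)) := by
  have hx2 : 0 < 1 - ‖x‖ ^ 2 := by nlinarith [norm_nonneg x]
  have h1 : HasFDerivAt (fun x : E 2 => 1 - ‖x‖ ^ 2) (-(2 • (innerSL ℝ x))) x :=
    ((hasStrictFDerivAt_norm_sq x).hasFDerivAt).const_sub 1
  have h2 := h1.smul (int_deriv hF hx)
  refine ⟨_, h2, fun v v' => ?_⟩
  rw [_root_.add_apply, _root_.smul_apply,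
    ContinuousLinearMap.smulRight_apply, _root_.neg_apply,
    _root_.smul_apply, innerSL_apply_apply, inner_add_left,
    real_inner_smul_left, real_inner_smul_left,
    ContinuousLinearMap.integral_apply (integrable_sig (KK_cont hF hx))]
  have h3 : (inner ℝ (∫ θ : Sph 2, KK F x θ v' ∂(sig 2)) v : ℝ) =
      ∫ θ : Sph 2, (kf F x θ * (inner ℝ (θ : E 2) v' : ℝ) * (inner ℝ (θ : E 2) v : ℝ)) ∂(sig 2) := by
    have hi : Integrable (fun θ => KK F x θ v') (sig 2) :=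
      integrable_sig ((continuous_clm_apply.1 (KK_cont hF hx)) v')
    rw [real_inner_comm, ← integral_inner hi v]
    congr 1
    funext θ
    rw [KK_apply, real_inner_smul_right, real_inner_comm (θ : E 2) v]
  have h4 : (inner ℝ (T F x) v : ℝ) / (1 - ‖x‖ ^ 2) =
      (inner ℝ (∫ θ : Sph 2, ((F θ - Real.arcsin (inner ℝ x (θ : E 2))) /
        DD x (θ : E 2) ^ 3) • (θ : E 2) ∂(sig 2)) v : ℝ) := by
    unfold T
    rw [real_inner_smul_left, mul_div_assoc, mul_comm, div_mul_cancel₀ _ hx2.ne']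
  rw [h3, h4, integral_const_mul]
  simp only [nsmul_eq_mul, Nat.cast_ofNat]
  ring

/-- [FA-FR2] -/
theorem s_FR2 : S_FR2 := by
  intro e e' he r h0 h1 F hF
  have hFc := lip_cont hF
  have hre : ‖r • e‖ = r := by rw [norm_smul, he.1, mul_one, Real.norm_eq_abs, abs_of_nonneg h0]
  have hx : ‖r • e‖ < 1 := by rw [hre]; exact h1
  obtain ⟨L, hL, hLv⟩ := T_deriv hFc hx
  refine ⟨L, hL, fun v v' => ?_⟩
  rw [hLv v v']
  obtain ⟨hp1, hp2, hp3⟩ := s_PAR e e' he r h0 h1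
  have hG : Continuous (fun θ : Sph 2 => (1 - ‖r • e‖ ^ 2) * (kf F (r • e) θ *
        (inner ℝ (θ : E 2) v' : ℝ) * (inner ℝ (θ : E 2) v : ℝ))) :=
    (continuous_const).mul (((kf_cont hFc hx).mul (by fun_prop)).mul (by fun_prop))
  rw [hp2 _ hG]
  have hc := c_pos h0 h1
  have hcs := c_sq h0 h1
  have hin2 : (inner ℝ (r • e) v' : ℝ) = r * (inner ℝ v' e : ℝ) := by
    rw [real_inner_smul_left, real_inner_comm]
  have hkey : √(1 - r ^ 2) * (∫ w in (0 : ℝ)..(2 * Real.pi),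
      (1 - ‖r • e‖ ^ 2) * (kf F (r • e) (pt (Th e e' r w)) *
        (inner ℝ ((pt (Th e e' r w) : Sph 2) : E 2) v' : ℝ) *
        (inner ℝ ((pt (Th e e' r w) : Sph 2) : E 2) v : ℝ)) * rho r w) =
      -(∫ w in (0 : ℝ)..(2 * Real.pi),
        (1 - 3 * (r / √(1 - r ^ 2)) * Real.cos w * (F (pt (Th e e' r w)) - aa r w)) *
        ((inner ℝ v e : ℝ) * Real.cos w + √(1 - r ^ 2) * (inner ℝ v e' : ℝ) * Real.sin w) *
        ((inner ℝ v' e : ℝ) * Real.cos w + √(1 - r ^ 2) * (inner ℝ v' e' : ℝ) * Real.sin w)) := by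
    rw [← intervalIntegral.integral_const_mul, ← intervalIntegral.integral_neg]
    apply intervalIntegral.integral_congr
    intro w _
    simp only
    have hD := den_pos h0 h1 w
    have hDs : 0 < √(1 - r ^ 2 * Real.sin w ^ 2) := Real.sqrt_pos.2 hD
    have hDq : √(1 - r ^ 2 * Real.sin w ^ 2) ^ 2 = 1 - r ^ 2 * Real.sin w ^ 2 :=
      Real.sq_sqrt hD.le
    have hin : (inner ℝ (r • e) (Th e e' r w) : ℝ) =
        r * Real.cos w / √(1 - r ^ 2 * Real.sin w ^ 2) := by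
      unfold Th
      rw [real_inner_smul_left, real_inner_smul_right, inner_add_right, real_inner_smul_right,
        real_inner_smul_right, real_inner_self_eq_norm_sq, he.1, he.2.2]
      field_simp
      ring
    have hinv : ∀ v : E 2, (inner ℝ (Th e e' r w) v : ℝ) = (√(1 - r ^ 2 * Real.sin w ^ 2))⁻¹ *
        ((inner ℝ v e : ℝ) * Real.cos w + √(1 - r ^ 2) * (inner ℝ v e' : ℝ) * Real.sin w) := by
      intro v
      unfold Th
      rw [real_inner_smul_left, inner_add_left, real_inner_smul_left, real_inner_smul_left,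
        real_inner_comm v e, real_inner_comm v e']
      ring
    have harc : Real.arcsin (r * Real.cos w / √(1 - r ^ 2 * Real.sin w ^ 2)) = aa r w := by
      have hlt := inner_lt hx (pt (Th e e' r w))
      rw [pt_coe (hp1 w), hin] at hlt
      rw [Real.arcsin_eq_arctan (abs_lt.1 hlt)]
      unfold aa
      congr 1
      have h3 : √(1 - (r * Real.cos w / √(1 - r ^ 2 * Real.sin w ^ 2)) ^ 2) =
          √(1 - r ^ 2) / √(1 - r ^ 2 * Real.sin w ^ 2) := by
        rw [← DD_Th he h0 h1]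
        unfold DD
        rw [hin]
      rw [h3]
      field_simp
    unfold kf
    rw [pt_coe (hp1 w), hinv v, hinv v', hin, harc, DD_Th he h0 h1, hre]
    unfold rho
    clear hLv hG hp2 hp3 hinv harc hin hin2 hx hre
    generalize √(1 - r ^ 2) = c at hc hcs ⊢
    rw [← hcs, ← hDq]
    generalize (inner ℝ v e : ℝ) * Real.cos w + c * (inner ℝ v e' : ℝ) * Real.sin w = V
    generalize (inner ℝ v' e : ℝ) * Real.cos w + c * (inner ℝ v' e' : ℝ) * Real.sin w = V'
    generalize F (pt (Th e e' r w)) - aa r w = A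
    rw [Real.sqrt_sq hDs.le]
    generalize √(1 - r ^ 2 * Real.sin w ^ 2) = D at hDs
    field_simp
    ring
  rw [mul_sub, hkey, hin2, hre]
  congr 1
  clear hkey hLv hG hp2 hp3
  generalize (inner ℝ (T F (r • e)) v : ℝ) = t
  generalize √(1 - r ^ 2) = c at hc hcs ⊢
  rw [← hcs]
  field_simp

end Pool.Agent.L7h22.FA
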