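import Pool.Agent.L7h22.FA.Fr1

/-! [FA-LQ], [FA-CQ], [FA-BD] of project FA (helper77). -/

set_option autoImplicit false
set_option linter.unusedVariables false

open MeasureTheory Metric Set Filter Topology InnerProductGeometry

namespace Pool.Agent.L7h22.FA

open Pool.Agent.H241R3.FV (E Sph sig)
open Pool.Agent.L7h77.FA

theorem exists_ON (x : E 2) : ∃ e e' : E 2, ON e e' ∧ x = ‖x‖ • e := by
  have key : ∀ e : E 2, ‖e‖ = 1 → ∃ e' : E 2, ON e e' := by
    intro e he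
    refine ⟨!₂[-(e 1), e 0], he, ?_, ?_⟩
    · have h1 : ‖e‖ ^ 2 = 1 := by rw [he]; norm_num
      rw [EuclideanSpace.norm_sq_eq, Fin.sum_univ_two] at h1
      simp only [Real.norm_eq_abs, sq_abs] at h1
      rw [EuclideanSpace.norm_eq, Fin.sum_univ_two]
      simp only [Real.norm_eq_abs, sq_abs]
      simp
      linarith
    · simp [PiLp.inner_apply, Fin.sum_univ_two]
      ring
  by_cases hx : x = 0
  · obtain ⟨e', he'⟩ := key (EuclideanSpace.single 0 1) (by simp)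
    exact ⟨_, e', he', by rw [hx]; simp⟩
  · have h1 : ‖‖x‖⁻¹ • x‖ = 1 := by
      rw [norm_smul, norm_inv, norm_norm, inv_mul_cancel₀ (norm_ne_zero_iff.2 hx)]
    obtain ⟨e', he'⟩ := key _ h1
    exact ⟨_, e', he', by rw [smul_smul, mul_inv_cancel₀ (norm_ne_zero_iff.2 hx), one_smul]⟩

/-- `DD` in the new angle -/
theorem DD_Th {e e' : E 2} (he : ON e e') {r : ℝ} (h0 : 0 ≤ r) (h1 : r < 1) (w : ℝ) :
    DD (r • e) (Th e e' r w) = √(1 - r ^ 2) / √(1 - r ^ 2 * Real.sin w ^ 2) := by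
  have hc := c_pos h0 h1
  have hcs := c_sq h0 h1
  have hD := den_pos h0 h1 w
  have hDs : 0 < √(1 - r ^ 2 * Real.sin w ^ 2) := Real.sqrt_pos.2 hD
  have hDq : √(1 - r ^ 2 * Real.sin w ^ 2) ^ 2 = 1 - r ^ 2 * Real.sin w ^ 2 := Real.sq_sqrt hD.le
  have hs : Real.sin w ^ 2 + Real.cos w ^ 2 = 1 := Real.sin_sq_add_cos_sq w
  have hin : (inner ℝ (r • e) (Th e e' r w) : ℝ) =
      r * Real.cos w / √(1 - r ^ 2 * Real.sin w ^ 2) := by
    unfold Th
    rw [real_inner_smul_left, real_inner_smul_right, inner_add_right, real_inner_smul_right,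
      real_inner_smul_right, real_inner_self_eq_norm_sq, he.1, he.2.2]
    field_simp
    ring
  unfold DD
  rw [hin]
  have h3 : 1 - (r * Real.cos w / √(1 - r ^ 2 * Real.sin w ^ 2)) ^ 2 =
      (√(1 - r ^ 2) / √(1 - r ^ 2 * Real.sin w ^ 2)) ^ 2 := by
    rw [div_pow, div_pow, hDq, hcs, eq_div_iff hD.ne', sub_mul, div_mul_cancel₀ _ hD.ne']
    linear_combination (-r ^ 2) * hs
  rw [h3, Real.sqrt_sq (div_pos hc hDs).le]

/-- `(1 - |x|²) ∫ DD^(-3) ≤ 2π` -/
theorem int_DD3 {x : E 2} (hx : ‖x‖ < 1) :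
    (1 - ‖x‖ ^ 2) * ∫ θ : Sph 2, (DD x (θ : E 2) ^ 3)⁻¹ ∂(sig 2) ≤ 2 * Real.pi := by
  obtain ⟨e, e', he, hxe⟩ := exists_ON x
  have h0 := norm_nonneg x
  set r := ‖x‖ with hr
  have hcont : Continuous (fun θ : Sph 2 => (DD x (θ : E 2) ^ 3)⁻¹) :=
    ((DD_cont x).pow 3).inv₀ (fun θ => (pow_pos (DD_pos (by rw [← hr]; exact hx) θ) 3).ne')
  obtain ⟨hp1, hp2, hp3⟩ := s_PAR e e' he r h0 hx
  rw [hp2 _ hcont, ← intervalIntegral.integral_const_mul]
  have hc := c_pos h0 hx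
  have hcs := c_sq h0 hx
  have h2 : ∀ w : ℝ, (1 - r ^ 2) * ((DD x (pt (Th e e' r w) : E 2) ^ 3)⁻¹ * rho r w) =
      √(1 - r ^ 2 * Real.sin w ^ 2) := by
    intro w
    have hD := den_pos h0 hx w
    have hDs : 0 < √(1 - r ^ 2 * Real.sin w ^ 2) := Real.sqrt_pos.2 hD
    have hDq : √(1 - r ^ 2 * Real.sin w ^ 2) ^ 2 = 1 - r ^ 2 * Real.sin w ^ 2 :=
      Real.sq_sqrt hD.le
    rw [pt_coe (hp1 w), hxe, DD_Th he h0 hx]
    unfold rho
    rw [show (1 - r ^ 2) * ((((√(1 - r ^ 2) / √(1 - r ^ 2 * Real.sin w ^ 2)) ^ 3)⁻¹) *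
      (√(1 - r ^ 2) / (1 - r ^ 2 * Real.sin w ^ 2))) =
      √(1 - r ^ 2) ^ 2 * ((((√(1 - r ^ 2) / √(1 - r ^ 2 * Real.sin w ^ 2)) ^ 3)⁻¹) *
      (√(1 - r ^ 2) / √(1 - r ^ 2 * Real.sin w ^ 2) ^ 2)) by rw [hcs, hDq]]
    field_simp
  rw [intervalIntegral.integral_congr (g := fun w => √(1 - r ^ 2 * Real.sin w ^ 2))
    (fun w _ => h2 w)]
  have h3 : ∫ w in (0 : ℝ)..(2 * Real.pi), √(1 - r ^ 2 * Real.sin w ^ 2) ≤
      ∫ w in (0 : ℝ)..(2 * Real.pi), (1 : ℝ) := by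
    apply intervalIntegral.integral_mono_on (by positivity)
    · exact Continuous.intervalIntegrable (by fun_prop) _ _
    · exact Continuous.intervalIntegrable (by fun_prop) _ _
    · intro w _
      rw [Real.sqrt_le_one]
      nlinarith [mul_nonneg (sq_nonneg r) (sq_nonneg (Real.sin w))]
  refine h3.trans (le_of_eq ?_)
  simp

theorem T_sub {F F' : Sph 2 → ℝ} (hF : Continuous F) (hF' : Continuous F') {x : E 2}
    (hx : ‖x‖ < 1) : T F x - T F' x = (1 - ‖x‖ ^ 2) • ∫ θ : Sph 2,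
      ((F θ - F' θ) * (DD x (θ : E 2) ^ 3)⁻¹) • (θ : E 2) ∂(sig 2) := by
  have h1 : Integrable (fun θ : Sph 2 => ((F θ - Real.arcsin (inner ℝ x (θ : E 2))) /
      DD x (θ : E 2) ^ 3) • (θ : E 2)) (sig 2) :=
    integrable_sig ((kernel_cont hF hx).smul continuous_subtype_val)
  have h2 : Integrable (fun θ : Sph 2 => ((F' θ - Real.arcsin (inner ℝ x (θ : E 2))) /
      DD x (θ : E 2) ^ 3) • (θ : E 2)) (sig 2) :=
    integrable_sig ((kernel_cont hF' hx).smul continuous_subtype_val)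
  unfold T
  rw [← smul_sub, ← integral_sub h1 h2]
  congr 2
  funext θ
  rw [← sub_smul]
  congr 1
  ring

theorem T_sub_le {F F' : Sph 2 → ℝ} (hF : Continuous F) (hF' : Continuous F') {x : E 2}
    (hx : ‖x‖ < 1) {δ : ℝ} (h : ∀ θ, |F θ - F' θ| ≤ δ) :
    ‖T F x - T F' x‖ ≤ 2 * Real.pi * δ := by
  have hδ : 0 ≤ δ := (abs_nonneg _).trans (h ⟨EuclideanSpace.single 0 1, by simp⟩)
  have hx2 : 0 < 1 - ‖x‖ ^ 2 := by nlinarith [norm_nonneg x]
  rw [T_sub hF hF' hx, norm_smul, Real.norm_eq_abs, abs_of_pos hx2]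
  have hcont : Continuous (fun θ : Sph 2 => (DD x (θ : E 2) ^ 3)⁻¹) :=
    ((DD_cont x).pow 3).inv₀ (fun θ => (pow_pos (DD_pos hx θ) 3).ne')
  have h2 : ‖∫ θ : Sph 2, ((F θ - F' θ) * (DD x (θ : E 2) ^ 3)⁻¹) • (θ : E 2) ∂(sig 2)‖ ≤
      ∫ θ : Sph 2, δ * (DD x (θ : E 2) ^ 3)⁻¹ ∂(sig 2) := by
    apply norm_integral_le_of_norm_le (integrable_sig (continuous_const.mul hcont))
    filter_upwards with θ
    have h3 : 0 < (DD x (θ : E 2) ^ 3)⁻¹ := inv_pos.2 (pow_pos (DD_pos hx θ) 3)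
    rw [norm_smul, norm_sph, mul_one, norm_mul, Real.norm_eq_abs, Real.norm_eq_abs,
      abs_of_pos h3]
    exact mul_le_mul_of_nonneg_right (h θ) h3.le
  rw [integral_const_mul] at h2
  calc (1 - ‖x‖ ^ 2) * _ ≤ (1 - ‖x‖ ^ 2) * (δ * ∫ θ : Sph 2, (DD x (θ : E 2) ^ 3)⁻¹ ∂(sig 2)) :=
        mul_le_mul_of_nonneg_left h2 hx2.le
    _ = δ * ((1 - ‖x‖ ^ 2) * ∫ θ : Sph 2, (DD x (θ : E 2) ^ 3)⁻¹ ∂(sig 2)) := by ring
    _ ≤ δ * (2 * Real.pi) := mul_le_mul_of_nonneg_left (int_DD3 hx) hδ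
    _ = _ := by ring

/-- [FA-LQ] -/
theorem s_LQ : S_LQ := by
  intro x hx F F' δ hF hF' h
  refine (T_sub_le (lip_cont hF) (lip_cont hF') hx h).trans ?_
  have hδ : 0 ≤ δ := (abs_nonneg _).trans (h ⟨EuclideanSpace.single 0 1, by simp⟩)
  have h1 : 0 < √(1 - ‖x‖ ^ 2) := Real.sqrt_pos.2 (by nlinarith [norm_nonneg x])
  have h2 : √(1 - ‖x‖ ^ 2) ≤ 1 := by
    rw [Real.sqrt_le_one]
    nlinarith [norm_nonneg x]
  apply mul_le_mul_of_nonneg_right _ hδ
  rw [le_div_iff₀ h1]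
  nlinarith [Real.pi_pos]

/-- continuity in `x` -/
theorem T_cont {F : Sph 2 → ℝ} (hF : Continuous F) {x : E 2} (hx : ‖x‖ < 1) :
    ContinuousAt (T F) x := by
  obtain ⟨C, hC⟩ : ∃ C, ∀ θ, |F θ| ≤ C := by
    obtain ⟨C, hC⟩ := (isCompact_univ (X := Sph 2)).exists_bound_of_continuousOn hF.continuousOn
    exact ⟨C, fun θ => hC θ (mem_univ θ)⟩
  obtain ⟨ρ, hρ1, hρ2⟩ := exists_between hx
  have hρ0 : 0 ≤ ρ := (norm_nonneg x).trans hρ1.le
  have hev : ∀ᶠ y in 𝓝 x, ‖y‖ < ρ := (continuous_norm.tendsto x).eventually_lt_const hρ1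
  have hlow : ∀ y : E 2, ‖y‖ < ρ → ∀ θ : Sph 2, √(1 - ρ ^ 2) ≤ DD y (θ : E 2) := by
    intro y hy θ
    unfold DD
    apply Real.sqrt_le_sqrt
    have h1 := abs_real_inner_le_norm y (θ : E 2)
    rw [norm_sph, mul_one] at h1
    have h2 : (inner ℝ y (θ : E 2) : ℝ) ^ 2 ≤ ρ ^ 2 := by
      rw [← sq_abs]
      exact pow_le_pow_left₀ (abs_nonneg _) (h1.trans hy.le) 2
    linarith
  have hs : 0 < √(1 - ρ ^ 2) := Real.sqrt_pos.2 (by nlinarith)
  have hint : ContinuousAt (fun x : E 2 => ∫ θ : Sph 2, ((F θ - Real.arcsin (inner ℝ x (θ : E 2))) /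
      DD x (θ : E 2) ^ 3) • (θ : E 2) ∂(sig 2)) x := by
    apply continuousAt_of_dominated (bound := fun _ => (C + Real.pi / 2) / √(1 - ρ ^ 2) ^ 3)
    · filter_upwards [hev] with y hy
      exact (((kernel_cont hF (hy.trans hρ2)).smul continuous_subtype_val)).aestronglyMeasurable
    · filter_upwards [hev] with y hy
      filter_upwards with θ
      have h1 := DD_pos (hy.trans hρ2) θ
      rw [norm_smul, norm_sph, mul_one, norm_div, norm_pow, Real.norm_eq_abs, Real.norm_eq_abs,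
        abs_of_pos h1]
      apply div_le_div₀
      · have := (abs_nonneg _).trans (hC θ)
        positivity
      · refine (abs_sub _ _).trans (add_le_add (hC θ) ?_)
        rw [abs_le]
        exact ⟨Real.neg_pi_div_two_le_arcsin _, Real.arcsin_le_pi_div_two _⟩
      · positivity
      · exact pow_le_pow_left₀ hs.le (hlow y hy θ) 3
    · exact integrable_const _
    · filter_upwards with θ
      have hk : ContinuousAt (fun x : E 2 => (F θ - Real.arcsin (inner ℝ x (θ : E 2))) /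
          DD x (θ : E 2) ^ 3) x := by
        apply ContinuousAt.div
        · apply Continuous.continuousAt
          exact continuous_const.sub (Real.continuous_arcsin.comp (by fun_prop))
        · apply Continuous.continuousAt
          unfold DD
          fun_prop
        · exact (pow_pos (DD_pos hx θ) 3).ne'
      exact hk.smul continuousAt_const
  have hc1 : ContinuousAt (fun x : E 2 => 1 - ‖x‖ ^ 2) x := by
    apply Continuous.continuousAt
    fun_prop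
  exact hc1.smul hint

/-- [FA-CQ] -/
theorem s_CQ (hFF : S_FF) : S_CQ := by
  intro M _ bd hNS
  obtain ⟨h1, h2, h3⟩ := hFF M bd hNS
  rintro ⟨x, q⟩ hx
  simp only [mem_ofPred_eq] at hx
  apply ContinuousAt.continuousWithinAt
  have hcx := T_cont (lip_cont (h1 q)) hx
  have hev : ∀ᶠ z : E 2 × M in 𝓝 (x, q), ‖z.1‖ < 1 :=
    ((continuous_norm.comp continuous_fst).tendsto (x, q)).eventually_lt_const hx
  have hA : Tendsto (fun z : E 2 × M => T (FF bd z.2) z.1 - T (FF bd q) z.1) (𝓝 (x, q)) (𝓝 0) := by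
    apply squeeze_zero_norm' (a := fun z : E 2 × M => 2 * Real.pi * dist z.2 q)
    · filter_upwards [hev] with z hz
      exact T_sub_le (lip_cont (h1 z.2)) (lip_cont (h1 q)) hz (fun θ => h2 z.2 q θ)
    · have h4 : Continuous (fun z : E 2 × M => 2 * Real.pi * dist z.2 q) := by fun_prop
      have h5 := h4.tendsto (x, q)
      simpa using h5
  have hB : Tendsto (fun z : E 2 × M => T (FF bd q) z.1) (𝓝 (x, q)) (𝓝 (T (FF bd q) x)) :=
    Tendsto.comp (f := fun z : E 2 × M => z.1) hcx (continuous_fst.tendsto (x, q))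
  have hC := hA.add hB
  simp only [sub_add_cancel, zero_add] at hC
  exact hC

theorem arcsin_sub {a b : ℝ} (ha : a ∈ Icc (-1 : ℝ) 1) (hb : b ∈ Icc (-1 : ℝ) 1) :
    (a - b) ^ 2 ≤ (Real.arcsin a - Real.arcsin b) * (a - b) := by
  have key : ∀ {u v : ℝ}, u ∈ Icc (-1 : ℝ) 1 → v ∈ Icc (-1 : ℝ) 1 → v ≤ u →
      u - v ≤ Real.arcsin u - Real.arcsin v := by
    intro u v hu hv huv
    have h1 : Real.sin (Real.arcsin u) - Real.sin (Real.arcsin v) ≤
        |Real.arcsin u - Real.arcsin v| := by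
      refine (le_abs_self _).trans ?_
      have h2 := Real.abs_sin_sub_sin_le (Real.arcsin u) (Real.arcsin v)
      exact h2
    rw [Real.sin_arcsin hu.1 hu.2, Real.sin_arcsin hv.1 hv.2,
      abs_of_nonneg (sub_nonneg.2 (Real.monotone_arcsin huv))] at h1
    exact h1
  rcases le_total b a with h | h
  · have h1 := key ha hb h
    nlinarith
  · have h1 := key hb ha h
    nlinarith

theorem int_inner_sq (u : E 2) : ∫ θ : Sph 2, (inner ℝ u (θ : E 2) : ℝ) ^ 2 ∂(sig 2) =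
    Real.pi * ‖u‖ ^ 2 := by
  obtain ⟨e, e', he, hue⟩ := exists_ON u
  rw [circ he]
  have h1 : ∀ t : ℝ, (inner ℝ u ((pt (U e e' t) : Sph 2) : E 2) : ℝ) ^ 2 =
      ‖u‖ ^ 2 * Real.cos t ^ 2 := by
    intro t
    rw [pt_coe (norm_U he t)]
    have h2 : (inner ℝ u (U e e' t) : ℝ) = ‖u‖ * Real.cos t := by
      conv_lhs => rw [hue]
      unfold U
      rw [real_inner_smul_left, inner_add_right, real_inner_smul_right, real_inner_smul_right,
        real_inner_self_eq_norm_sq, he.1, he.2.2]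
      ring
    rw [h2]
    ring
  rw [intervalIntegral.integral_congr (g := fun t => ‖u‖ ^ 2 * Real.cos t ^ 2) (fun t _ => h1 t),
    intervalIntegral.integral_const_mul, integral_cos_sq]
  simp
  ring

/-- [FA-BD] -/
theorem s_BD (hFF : S_FF) : S_BD := by
  intro M _ bd hNS x hx p
  obtain ⟨h1, h2, h3⟩ := hFF M bd hNS
  have hFc := lip_cont (h1 (bd p))
  rw [inner_T hFc hx]
  have hx2 : 0 < 1 - ‖x‖ ^ 2 := by nlinarith [norm_nonneg x]
  have h4 : Real.pi * (1 - ‖x‖ ^ 2) * ‖(p : E 2) - x‖ ^ 2 =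
      ∫ θ : Sph 2, (1 - ‖x‖ ^ 2) * (inner ℝ ((p : E 2) - x) (θ : E 2) : ℝ) ^ 2 ∂(sig 2) := by
    rw [integral_const_mul, int_inner_sq]
    ring
  rw [h4]
  apply integral_mono
  · exact integrable_sig (by fun_prop)
  · exact integrable_sig (((continuous_const).mul (kernel_cont hFc hx)).mul (by fun_prop))
  · intro θ
    simp only
    rw [h3 p θ, mul_assoc]
    apply mul_le_mul_of_nonneg_left _ hx2.le
    have hp : (inner ℝ (p : E 2) (θ : E 2) : ℝ) ∈ Icc (-1 : ℝ) 1 := by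
      have h5 := abs_real_inner_le_norm (p : E 2) (θ : E 2)
      rw [norm_sph, norm_sph, mul_one] at h5
      exact abs_le.1 h5
    have hxi : (inner ℝ x (θ : E 2) : ℝ) ∈ Icc (-1 : ℝ) 1 := abs_le.1 (inner_lt hx θ).le
    have h6 := arcsin_sub hp hxi
    have h7 := DD_pos hx θ
    have h8 : DD x (θ : E 2) ^ 3 ≤ 1 := by
      apply pow_le_one₀ h7.le
      unfold DD
      rw [Real.sqrt_le_one]
      nlinarith [sq_nonneg (inner ℝ x (θ : E 2) : ℝ)]
    rw [real_inner_comm, inner_sub_right, real_inner_comm (p : E 2) (θ : E 2),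
      real_inner_comm x (θ : E 2), div_mul_eq_mul_div, le_div_iff₀ (pow_pos h7 3)]
    nlinarith [sq_nonneg ((inner ℝ (p : E 2) (θ : E 2) : ℝ) - inner ℝ x (θ : E 2)), pow_pos h7 3]

end Pool.Agent.L7h22.FA
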