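import Pool.Agent.L7h77.FA.Stm

/-! [FA-PAR] of project FA (helper77): integration over the circle in the new angle. -/

set_option autoImplicit false
set_option linter.unusedVariables false

open MeasureTheory Metric Set Filter Topology InnerProductGeometry

namespace Pool.Agent.L7h22.FA

open Pool.Agent.H241R3.FV (E Sph sig)
open Pool.Agent.L7h77.FA

/-! ### points of the circle -/

theorem pt_coe {v : E 2} (h : ‖v‖ = 1) : ((pt v : Sph 2) : E 2) = v := by
  unfold pt
  rw [dif_pos h]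

/-- the point with angle `t` -/
noncomputable def U (e e' : E 2) (t : ℝ) : E 2 := Real.cos t • e + Real.sin t • e'

theorem norm_comb {e e' : E 2} (h : ON e e') (a b : ℝ) : ‖a • e + b • e'‖ ^ 2 = a ^ 2 + b ^ 2 := by
  obtain ⟨h1, h2, h3⟩ := h
  rw [norm_add_sq_real, norm_smul, norm_smul, real_inner_smul_left, real_inner_smul_right, h1, h2,
    h3, Real.norm_eq_abs, Real.norm_eq_abs, mul_one, mul_one, sq_abs, sq_abs]
  ring

theorem norm_U {e e' : E 2} (h : ON e e') (t : ℝ) : ‖U e e' t‖ = 1 := by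
  have h1 := norm_comb h (Real.cos t) (Real.sin t)
  rw [Real.cos_sq_add_sin_sq] at h1
  have h2 : (‖U e e' t‖ - 1) * (‖U e e' t‖ + 1) = 0 := by
    unfold U
    linear_combination h1
  have h3 := norm_nonneg (U e e' t)
  rcases mul_eq_zero.1 h2 with h4 | h4 <;> linarith

theorem inner_U {e e' : E 2} (h : ON e e') (s t : ℝ) :
    (inner ℝ (U e e' s) (U e e' t) : ℝ) = Real.cos (s - t) := by
  obtain ⟨h1, h2, h3⟩ := h
  have h4 : (inner ℝ e' e : ℝ) = 0 := by rw [real_inner_comm]; exact h3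
  unfold U
  rw [inner_add_left, inner_add_right, inner_add_right]
  simp only [real_inner_smul_left, real_inner_smul_right, real_inner_self_eq_norm_sq, h1, h2, h3, h4,
    Real.cos_sub]
  ring

theorem arccos_cos_le (x : ℝ) : Real.arccos (Real.cos x) ≤ |x| := by
  rcases le_or_gt |x| Real.pi with h | h
  · rw [← Real.cos_abs, Real.arccos_cos (abs_nonneg x) h]
  · exact (Real.arccos_le_pi _).trans h.le

theorem angle_U {e e' : E 2} (h : ON e e') (s t : ℝ) :
    angle (U e e' s) (U e e' t) ≤ |s - t| := by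
  unfold InnerProductGeometry.angle
  rw [norm_U h, norm_U h, inner_U h, mul_one, div_one]
  exact arccos_cos_le _

theorem cont_ptU {e e' : E 2} (h : ON e e') : Continuous (fun t => pt (U e e' t)) := by
  have h1 : (fun t => pt (U e e' t)) = fun t => (⟨U e e' t, by simp [norm_U h t]⟩ : Sph 2) := by
    funext t
    exact Subtype.ext (pt_coe (norm_U h t))
  rw [h1]
  apply Continuous.subtype_mk
  unfold U
  fun_prop

/-! ### the plane -/

/-- the cut-off -/
noncomputable def phi (r : ℝ) : ℝ := if r < 1 then 1 else 0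

theorem stepA (G : Sph 2 → ℝ) :
    ∫ x : E 2, G (pt (‖x‖⁻¹ • x)) * phi ‖x‖ =
      (∫ x : Sph 2, G x ∂(sig 2)) * ∫ y in Ioi (0 : ℝ), y * phi y := by
  have hdim : Module.finrank ℝ (E 2) = 2 := by simp [E]
  set f : E 2 → ℝ := fun x => G (pt (‖x‖⁻¹ • x)) * phi ‖x‖ with hf
  calc ∫ x : E 2, f x
      = ∫ x : ({(0 : E 2)}ᶜ : Set (E 2)), f x.1 ∂((volume : Measure (E 2)).comap (↑)) := by
        rw [integral_subtype_comap (measurableSet_singleton _).compl f,
          restrict_compl_singleton]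
    _ = ∫ p, (G p.1) * (phi (p.2 : ℝ))
          ∂((volume : Measure (E 2)).toSphere.prod
            (.volumeIoiPow (Module.finrank ℝ (E 2) - 1))) := by
        have h := (volume : Measure (E 2)).measurePreserving_homeomorphUnitSphereProd.integral_comp
          (Homeomorph.measurableEmbedding _)
          (fun p : (sphere (0 : E 2) 1) × (Ioi (0 : ℝ)) =>
            (G p.1) * (phi (p.2 : ℝ)))
        rw [← h]
        apply integral_congr_ae
        filter_upwards with x
        simp only [hf, homeomorphUnitSphereProd_apply_snd_coe]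
        congr 2
        apply Subtype.ext
        rw [homeomorphUnitSphereProd_apply_fst_coe]
        apply pt_coe
        have hx : (x : E 2) ≠ 0 := x.2
        rw [norm_smul, norm_inv, norm_norm, inv_mul_cancel₀ (norm_ne_zero_iff.2 hx)]
    _ = (∫ x : Sph 2, G x ∂(sig 2)) *
          ∫ y : Ioi (0 : ℝ), phi (y : ℝ) ∂(.volumeIoiPow (Module.finrank ℝ (E 2) - 1)) := by
        rw [integral_prod_mul (fun x : sphere (0 : E 2) 1 => G x)
          (fun y : Ioi (0 : ℝ) => phi (y : ℝ))]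
        rfl
    _ = _ := by
        congr 1
        simp only [Measure.volumeIoiPow, ENNReal.ofReal]
        rw [integral_withDensity_eq_integral_smul,
          integral_subtype_comap measurableSet_Ioi
            fun a ↦ Real.toNNReal (a ^ (Module.finrank ℝ (E 2) - 1)) • phi a,
          setIntegral_congr_fun measurableSet_Ioi fun x hx ↦ ?_]
        · rw [NNReal.smul_def, Real.coe_toNNReal _ (pow_nonneg hx.out.le _), hdim]
          norm_num
        · exact (measurable_subtype_coe.pow_const _).real_toNNReal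

theorem radial : ∫ y in Ioi (0 : ℝ), y * phi y = 1 / 2 := by
  have h1 : ∫ y in Ioi (0 : ℝ), y * phi y = ∫ y in Ioo (0 : ℝ) 1, y := by
    rw [← Ioi_inter_Iio, ← setIntegral_indicator measurableSet_Iio]
    apply setIntegral_congr_fun measurableSet_Ioi
    intro y _
    by_cases hy : y < 1
    · simp [phi, hy]
    · simp [phi, hy]
  rw [h1, ← integral_Ioc_eq_integral_Ioo, ← intervalIntegral.integral_of_le zero_le_one,
    integral_id]
  norm_num

theorem stepB {e e' : E 2} (h : ON e e') (f : E 2 → ℝ) :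
    ∫ x : E 2, f x = ∫ p : ℝ × ℝ, f (p.1 • e + p.2 • e') := by
  have hon : Orthonormal ℝ (![e, e']) := by
    obtain ⟨h1, h2, h3⟩ := h
    rw [orthonormal_iff_ite]
    intro i j
    fin_cases i <;> fin_cases j <;>
      simp [h1, h2, h3, real_inner_comm]
  have hcard : Fintype.card (Fin 2) = Module.finrank ℝ (E 2) := by simp [E]
  set b0 : Module.Basis (Fin 2) ℝ (E 2) :=
    basisOfLinearIndependentOfCardEqFinrank hon.linearIndependent hcard with hb0
  have hb0c : (b0 : Fin 2 → E 2) = ![e, e'] := by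
    rw [hb0, coe_basisOfLinearIndependentOfCardEqFinrank]
  set b : OrthonormalBasis (Fin 2) ℝ (E 2) := b0.toOrthonormalBasis (by rw [hb0c]; exact hon) with hb
  have hbc : (b : Fin 2 → E 2) = ![e, e'] := by
    rw [hb, Module.Basis.coe_toOrthonormalBasis, hb0c]
  have h1 := (b.measurePreserving_repr_symm).integral_comp
    b.repr.symm.toHomeomorph.measurableEmbedding f
  rw [← h1]
  have h2 := (PiLp.volume_preserving_toLp (Fin 2)).integral_comp
      (MeasurableEquiv.toLp 2 (Fin 2 → ℝ)).measurableEmbedding (fun y : E 2 => f (b.repr.symm y))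
  rw [← h2]
  have h3 := ((volume_preserving_finTwoArrow ℝ).symm).integral_comp
    (MeasurableEquiv.finTwoArrow (α := ℝ)).symm.measurableEmbedding
    (fun y : Fin 2 → ℝ => f (b.repr.symm (WithLp.toLp 2 y)))
  rw [← h3]
  congr 1
  funext p
  congr 1
  rw [← b.sum_repr_symm]
  simp [hbc, MeasurableEquiv.finTwoArrow]

/-- integration over the circle in the angle -/
theorem circ {e e' : E 2} (h : ON e e') (G : Sph 2 → ℝ) :
    ∫ θ : Sph 2, G θ ∂(sig 2) = ∫ t in (-Real.pi)..Real.pi, G (pt (U e e' t)) := by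
  have h1 := stepA G
  rw [stepB h, ← integral_comp_polarCoord_symm, radial] at h1
  have h2 : ∫ p in polarCoord.target, p.1 • (fun p : ℝ × ℝ =>
      G (pt (‖p.1 • e + p.2 • e'‖⁻¹ • (p.1 • e + p.2 • e'))) * phi ‖p.1 • e + p.2 • e'‖)
        (polarCoord.symm p) =
      ∫ p in (Ioi (0 : ℝ)) ×ˢ (Ioo (-Real.pi) Real.pi), (p.1 * phi p.1) * G (pt (U e e' p.2)) := by
    rw [polarCoord_target]
    apply setIntegral_congr_fun (measurableSet_Ioi.prod measurableSet_Ioo)
    rintro ⟨r, t⟩ ⟨hr, ht⟩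
    simp only [mem_Ioi] at hr
    simp only [polarCoord_symm_apply, smul_eq_mul]
    have h3 : (r * Real.cos t) • e + (r * Real.sin t) • e' = r • U e e' t := by
      unfold U
      rw [smul_add, smul_smul, smul_smul]
    have h4 : ‖r • U e e' t‖ = r := by
      rw [norm_smul, norm_U h, mul_one, Real.norm_eq_abs, abs_of_pos hr]
    rw [h3, h4, smul_smul, inv_mul_cancel₀ hr.ne', one_smul]
    ring
  rw [h2, Measure.volume_eq_prod] at h1
  have h5 := setIntegral_prod_mul (μ := (volume : Measure ℝ)) (ν := (volume : Measure ℝ))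
    (fun r : ℝ => r * phi r) (fun t : ℝ => G (pt (U e e' t))) (Ioi (0 : ℝ)) (Ioo (-Real.pi) Real.pi)
  rw [h5, radial] at h1
  rw [intervalIntegral.integral_of_le (by linarith [Real.pi_pos]), integral_Ioc_eq_integral_Ioo]
  linarith

/-! ### the new angle -/

/-- `1 - r² sin² w` -/
theorem den_pos {r : ℝ} (h0 : 0 ≤ r) (h1 : r < 1) (w : ℝ) : 0 < 1 - r ^ 2 * Real.sin w ^ 2 := by
  have h2 := Real.sin_sq_add_cos_sq w
  have h3 := sq_nonneg (Real.cos w)
  have h4 := sq_nonneg (Real.sin w)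
  nlinarith [mul_nonneg h0 h0]

theorem c_pos {r : ℝ} (h0 : 0 ≤ r) (h1 : r < 1) : 0 < √(1 - r ^ 2) :=
  Real.sqrt_pos.2 (by nlinarith)

theorem c_sq {r : ℝ} (h0 : 0 ≤ r) (h1 : r < 1) : √(1 - r ^ 2) ^ 2 = 1 - r ^ 2 :=
  Real.sq_sqrt (by nlinarith)

/-- the quotient -/
noncomputable def XX (r w : ℝ) : ℝ :=
  (√(1 - r ^ 2) - 1) * (Real.sin w * Real.cos w) / (Real.cos w ^ 2 + √(1 - r ^ 2) * Real.sin w ^ 2)

/-- the angle -/
noncomputable def tt (r w : ℝ) : ℝ := w + Real.arctan (XX r w)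

theorem q_pos {c : ℝ} (hc : 0 < c) (w : ℝ) : 0 < Real.cos w ^ 2 + c * Real.sin w ^ 2 := by
  have h2 := Real.sin_sq_add_cos_sq w
  have h3 := sq_nonneg (Real.cos w)
  have h4 := sq_nonneg (Real.sin w)
  rcases h4.lt_or_eq with h5 | h5
  · nlinarith [mul_pos hc h5]
  · rw [← h5] at h2 ⊢
    linarith

theorem one_add_XX {r : ℝ} (h0 : 0 ≤ r) (h1 : r < 1) (w : ℝ) :
    1 + XX r w ^ 2 = (1 - r ^ 2 * Real.sin w ^ 2) /
      (Real.cos w ^ 2 + √(1 - r ^ 2) * Real.sin w ^ 2) ^ 2 := by
  have hc := c_pos h0 h1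
  have hcs := c_sq h0 h1
  have hq := q_pos hc w
  have hs : Real.cos w ^ 2 = 1 - Real.sin w ^ 2 := by linarith [Real.sin_sq_add_cos_sq w]
  unfold XX
  rw [div_pow, eq_div_iff (by positivity), add_mul, div_mul_cancel₀ _ (by positivity)]
  set c := √(1 - r ^ 2)
  set s := Real.sin w
  rw [mul_pow, mul_pow, hs]
  have hr : r ^ 2 = 1 - c ^ 2 := by linarith
  rw [hr]
  ring

theorem cos_tt {r : ℝ} (h0 : 0 ≤ r) (h1 : r < 1) (w : ℝ) :
    Real.cos (tt r w) = (√(1 - r ^ 2 * Real.sin w ^ 2))⁻¹ * Real.cos w ∧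
    Real.sin (tt r w) = (√(1 - r ^ 2 * Real.sin w ^ 2))⁻¹ * (√(1 - r ^ 2) * Real.sin w) := by
  have hc := c_pos h0 h1
  have hcs := c_sq h0 h1
  have hq := q_pos hc w
  have hD := den_pos h0 h1 w
  have hDs : 0 < √(1 - r ^ 2 * Real.sin w ^ 2) := Real.sqrt_pos.2 hD
  have hs : Real.cos w ^ 2 = 1 - Real.sin w ^ 2 := by linarith [Real.sin_sq_add_cos_sq w]
  have h2 : √(1 + XX r w ^ 2) = √(1 - r ^ 2 * Real.sin w ^ 2) /
      (Real.cos w ^ 2 + √(1 - r ^ 2) * Real.sin w ^ 2) := by
    rw [one_add_XX h0 h1, Real.sqrt_div hD.le, Real.sqrt_sq hq.le]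
  unfold tt
  rw [Real.cos_add, Real.sin_add, Real.cos_arctan, Real.sin_arctan, h2]
  unfold XX
  set c := √(1 - r ^ 2)
  set D := √(1 - r ^ 2 * Real.sin w ^ 2)
  constructor
  · rw [show Real.cos w * (1 / (D / (Real.cos w ^ 2 + c * Real.sin w ^ 2))) -
        Real.sin w * ((c - 1) * (Real.sin w * Real.cos w) / (Real.cos w ^ 2 + c * Real.sin w ^ 2) /
          (D / (Real.cos w ^ 2 + c * Real.sin w ^ 2))) =
        D⁻¹ * (Real.cos w * (Real.cos w ^ 2 + c * Real.sin w ^ 2) -
          Real.sin w * ((c - 1) * (Real.sin w * Real.cos w))) by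
        field_simp]
    congr 1
    linear_combination (Real.cos w) * hs
  · rw [show Real.sin w * (1 / (D / (Real.cos w ^ 2 + c * Real.sin w ^ 2))) +
        Real.cos w * ((c - 1) * (Real.sin w * Real.cos w) / (Real.cos w ^ 2 + c * Real.sin w ^ 2) /
          (D / (Real.cos w ^ 2 + c * Real.sin w ^ 2))) =
        D⁻¹ * (Real.sin w * (Real.cos w ^ 2 + c * Real.sin w ^ 2) +
          Real.cos w * ((c - 1) * (Real.sin w * Real.cos w))) by
        generalize Real.cos w ^ 2 + c * Real.sin w ^ 2 = q at hq ⊢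
        field_simp]
    congr 1
    linear_combination (c * Real.sin w) * hs

theorem Th_eq {r : ℝ} (h0 : 0 ≤ r) (h1 : r < 1) (e e' : E 2) (w : ℝ) :
    Th e e' r w = U e e' (tt r w) := by
  obtain ⟨h2, h3⟩ := cos_tt h0 h1 w
  unfold Th U
  rw [h2, h3, smul_add, smul_smul, smul_smul]

theorem tt_deriv {r : ℝ} (h0 : 0 ≤ r) (h1 : r < 1) (w : ℝ) : HasDerivAt (tt r) (rho r w) w := by
  have hc := c_pos h0 h1
  have hcs := c_sq h0 h1
  have hq := q_pos hc w
  have hD := den_pos h0 h1 w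
  have hs : Real.cos w ^ 2 = 1 - Real.sin w ^ 2 := by linarith [Real.sin_sq_add_cos_sq w]
  have hX : HasDerivAt (XX r)
      ((((√(1 - r ^ 2) - 1) * (Real.cos w * Real.cos w + Real.sin w * (-Real.sin w))) *
        (Real.cos w ^ 2 + √(1 - r ^ 2) * Real.sin w ^ 2) -
        (√(1 - r ^ 2) - 1) * (Real.sin w * Real.cos w) *
        ((2 : ℕ) * Real.cos w ^ (2 - 1) * (-Real.sin w) +
          √(1 - r ^ 2) * ((2 : ℕ) * Real.sin w ^ (2 - 1) * Real.cos w))) /
        (Real.cos w ^ 2 + √(1 - r ^ 2) * Real.sin w ^ 2) ^ 2) w := by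
    unfold XX
    exact HasDerivAt.div
      (((Real.hasDerivAt_sin w).mul (Real.hasDerivAt_cos w)).const_mul _)
      (((Real.hasDerivAt_cos w).pow 2).add (((Real.hasDerivAt_sin w).pow 2).const_mul _)) hq.ne'
  have h2 := (hasDerivAt_id w).add hX.arctan
  have h3 : (1 : ℝ) + (1 / (1 + XX r w ^ 2)) *
      ((((√(1 - r ^ 2) - 1) * (Real.cos w * Real.cos w + Real.sin w * (-Real.sin w))) *
        (Real.cos w ^ 2 + √(1 - r ^ 2) * Real.sin w ^ 2) -
        (√(1 - r ^ 2) - 1) * (Real.sin w * Real.cos w) *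
        ((2 : ℕ) * Real.cos w ^ (2 - 1) * (-Real.sin w) +
          √(1 - r ^ 2) * ((2 : ℕ) * Real.sin w ^ (2 - 1) * Real.cos w))) /
        (Real.cos w ^ 2 + √(1 - r ^ 2) * Real.sin w ^ 2) ^ 2) = rho r w := by
    rw [one_add_XX h0 h1]
    unfold rho
    set c := √(1 - r ^ 2)
    have hr : r ^ 2 = 1 - c ^ 2 := by linarith
    rw [hr] at hD ⊢
    field_simp
    simp only [Nat.cast_ofNat, Nat.add_one_sub_one, pow_one]
    have hk4 : Real.cos w ^ 4 = (1 - Real.sin w ^ 2) ^ 2 := by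
      rw [← hs]; ring
    ring_nf
    rw [hk4, hs]
    ring
  rw [← h3]
  exact h2

theorem tt_zero (r : ℝ) : tt r 0 = 0 := by
  simp [tt, XX]

theorem tt_two_pi (r : ℝ) : tt r (2 * Real.pi) = 2 * Real.pi := by
  simp [tt, XX]

theorem tt_per (r w : ℝ) : tt r (w + 2 * Real.pi) = tt r w + 2 * Real.pi := by
  unfold tt XX
  rw [Real.sin_add_two_pi, Real.cos_add_two_pi]
  ring

theorem rho_cont {r : ℝ} (h0 : 0 ≤ r) (h1 : r < 1) : Continuous (rho r) := by
  unfold rho
  apply Continuous.div continuous_const (by fun_prop)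
  intro w
  exact (den_pos h0 h1 w).ne'

theorem rho_pos {r : ℝ} (h0 : 0 ≤ r) (h1 : r < 1) (w : ℝ) : 0 < rho r w :=
  div_pos (c_pos h0 h1) (den_pos h0 h1 w)

theorem int_rho {r : ℝ} (h0 : 0 ≤ r) (h1 : r < 1) (w w' : ℝ) :
    ∫ u in w..w', rho r u = tt r w' - tt r w :=
  intervalIntegral.integral_eq_sub_of_hasDerivAt (fun u _ => tt_deriv h0 h1 u)
    ((rho_cont h0 h1).intervalIntegrable _ _)

theorem U_per (e e' : E 2) (t : ℝ) : U e e' (t + 2 * Real.pi) = U e e' t := by
  unfold U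
  rw [Real.sin_add_two_pi, Real.cos_add_two_pi]

/-- [FA-PAR] -/
theorem s_PAR : S_PAR := by
  intro e e' he r h0 h1
  refine ⟨fun w => by rw [Th_eq h0 h1, norm_U he], fun G hG => ?_, fun F hF => ⟨fun w => ?_,
    fun w w' => ?_⟩⟩
  · rw [circ he G]
    have hper : Function.Periodic (fun t => G (pt (U e e' t))) (2 * Real.pi) := by
      intro t
      simp only
      rw [U_per]
    have h2 := hper.intervalIntegral_add_eq (-Real.pi) 0
    rw [show -Real.pi + 2 * Real.pi = Real.pi by ring, zero_add] at h2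
    rw [h2]
    have h3 : Continuous (fun t => G (pt (U e e' t))) := hG.comp (cont_ptU he)
    have h4 := intervalIntegral.integral_comp_mul_deriv (a := 0) (b := 2 * Real.pi)
      (f := tt r) (f' := rho r) (g := fun t => G (pt (U e e' t)))
      (fun w _ => tt_deriv h0 h1 w) (rho_cont h0 h1).continuousOn h3
    rw [tt_zero, tt_two_pi] at h4
    rw [← h4]
    apply intervalIntegral.integral_congr
    intro w _
    simp only [Function.comp_apply]
    rw [Th_eq h0 h1]
  · rw [Th_eq h0 h1, Th_eq h0 h1, tt_per, U_per]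
  · rw [int_rho h0 h1, Th_eq h0 h1, Th_eq h0 h1]
    refine (hF _ _).trans ?_
    rw [pt_coe (norm_U he _), pt_coe (norm_U he _), abs_sub_comm]
    exact angle_U he _ _

end Pool.Agent.L7h22.FA
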