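import Pool.Agent.L7h77.FA.Stm

/-! [FA-XS], [FA-RAD] of project FA (helper77). -/

set_option autoImplicit false
set_option linter.unusedVariables false

open MeasureTheory Metric Set Filter Topology InnerProductGeometry

namespace Pool.Agent.L7h22.FA

open Pool.Agent.H241R3.FV (E Sph sig Fill)
open Pool.Agent.L7h77.FA

theorem kap_lt : vv / (4 * Real.pi ^ 2) < 1 / 4 := by
  have h1 := Real.pi_gt_three
  unfold vv
  rw [div_lt_div_iff₀ (by positivity) (by norm_num)]
  nlinarith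

theorem kap_pos : 0 < vv / (4 * Real.pi ^ 2) := by
  have h1 := Real.pi_pos
  unfold vv
  positivity

theorem psi_low {r : ℝ} (h0 : 0 ≤ r) (h1 : r ≤ 1) : 3 / 4 ≤ psi r := by
  unfold psi
  have h2 : 2 * r / (1 + r) ≤ 1 := by
    rw [div_le_one (by linarith)]
    linarith
  have h3 : 0 ≤ 2 * r / (1 + r) := by positivity
  have h4 : (2 * r / (1 + r)) ^ 2 ≤ 1 := pow_le_one₀ h3 h2
  have h5 := kap_lt
  have h6 := kap_pos
  nlinarith [mul_le_mul_of_nonneg_left h4 h6.le]

theorem psi_cont {s : Set ℝ} (hs : ∀ r ∈ s, 0 ≤ r) : ContinuousOn psi s := by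
  unfold psi
  apply ContinuousOn.sub continuousOn_const
  apply ContinuousOn.mul continuousOn_const
  apply ContinuousOn.pow
  apply ContinuousOn.div (by fun_prop) (by fun_prop)
  intro r hr
  have := hs r hr
  linarith

/-- [FA-XS] -/
theorem s_XS (hDET : S_DET) : S_XS := by
  intro r0 δ h0 h1 hδ
  obtain ⟨C, hC, hF⟩ := hDET r0 h0 h1
  have hpi := Real.pi_pos
  refine ⟨Real.pi ^ 2 * (3 / 4) * δ / ((1 + δ) * (C + 1)), by positivity, ?_⟩
  intro ε hε hε0 F hFl
  obtain ⟨hD, hI⟩ := hF F hFl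
  set A : Set (E 2) := closedBall (0 : E 2) r0 ∩ {x | ‖T F x‖ < ε} with hA
  choose! L hL using hD
  have hLA : ∀ x ∈ A, HasFDerivAt (T F) (L x) x ∧ Real.pi ^ 2 * psi ‖x‖ - C * ‖T F x‖ ≤ |(L x).det| := by
    intro x hx
    exact hL x (by simpa using hx.1)
  have hcont : ContinuousOn (T F) (closedBall (0 : E 2) r0) := by
    intro x hx
    exact (hL x (by simpa using hx)).1.continuousAt.continuousWithinAt
  have hAm : MeasurableSet A := by
    obtain ⟨U, hU1, hU2⟩ := (_root_.continuousOn_iff'.1 hcont) (ball (0 : E 2) ε) isOpen_ball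
    have h2 : A = U ∩ closedBall (0 : E 2) r0 := by
      rw [← hU2, hA, inter_comm]
      congr 1
      ext x
      simp
    rw [h2]
    exact hU1.measurableSet.inter isClosed_closedBall.measurableSet
  have hinj : InjOn (T F) A := by
    intro x hx y hy hxy
    have hx1 : ‖x‖ ≤ r0 := by simpa using hx.1
    have hy1 : ‖y‖ ≤ r0 := by simpa using hy.1
    exact hI x y (by linarith) (by linarith) hxy
  have himg : volume (T F '' A) ≤ volume (ball (0 : E 2) ε) := by
    apply measure_mono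
    rintro _ ⟨x, hx, rfl⟩
    rw [mem_ball_zero_iff]
    exact hx.2
  rw [← lintegral_abs_det_fderiv_eq_addHaar_image volume hAm
    (fun x hx => (hLA x hx).1.hasFDerivWithinAt) hinj] at himg
  calc ∫⁻ x in A, ENNReal.ofReal (Real.pi ^ 2 * psi ‖x‖)
      ≤ ∫⁻ x in A, ENNReal.ofReal (1 + δ) * ENNReal.ofReal |(L x).det| := by
        apply setLIntegral_mono' hAm
        intro x hx
        rw [← ENNReal.ofReal_mul (by linarith)]
        apply ENNReal.ofReal_le_ofReal
        have h2 := (hLA x hx).2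
        have h3 : ‖T F x‖ < ε := hx.2
        have h4 : 3 / 4 ≤ psi ‖x‖ := psi_low (norm_nonneg x) (by
          have : ‖x‖ ≤ r0 := by simpa using hx.1
          linarith)
        have h5 : ε * ((1 + δ) * (C + 1)) ≤ Real.pi ^ 2 * (3 / 4) * δ := by
          rwa [le_div_iff₀ (by positivity)] at hε0
        have h6 : C * ‖T F x‖ ≤ (C + 1) * ε := by
          have := norm_nonneg (T F x)
          nlinarith
        have h7 : Real.pi ^ 2 * (3 / 4) * δ ≤ Real.pi ^ 2 * psi ‖x‖ * δ := by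
          apply mul_le_mul_of_nonneg_right _ hδ.le
          apply mul_le_mul_of_nonneg_left h4 (by positivity)
        nlinarith
    _ = ENNReal.ofReal (1 + δ) * ∫⁻ x in A, ENNReal.ofReal |(L x).det| := by
        rw [lintegral_const_mul' _ _ ENNReal.ofReal_ne_top]
    _ ≤ _ := by gcongr

/-! ### the radial integral -/

/-- the primitive -/
noncomputable def PP (r : ℝ) : ℝ := -√(1 - r ^ 2) - vv / (4 * Real.pi ^ 2) * 4 *
  (-√(1 - r ^ 2) - 2 * Real.arcsin r - 8 / 3 * (√(1 - r ^ 2) / (1 + r)) +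
    √(1 - r ^ 2) / (3 * (1 + r) ^ 2))

theorem PP_deriv {r : ℝ} (h0 : 0 ≤ r) (h1 : r < 1) :
    HasDerivAt PP (r * (psi r / √(1 - r ^ 2))) r := by
  have hc : 0 < 1 - r ^ 2 := by nlinarith
  have hs : 0 < √(1 - r ^ 2) := Real.sqrt_pos.2 hc
  have hsq : √(1 - r ^ 2) ^ 2 = 1 - r ^ 2 := Real.sq_sqrt hc.le
  have hr1 : 0 < 1 + r := by linarith
  have hB : HasDerivAt (fun a : ℝ => 1 - a ^ 2) (-((2 : ℕ) * r ^ (2 - 1))) r :=
    (hasDerivAt_pow 2 r).const_sub 1
  have hS := hB.sqrt hc.ne'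
  have hA := Real.hasDerivAt_arcsin (x := r) (by linarith) h1.ne
  have h1r : HasDerivAt (fun a : ℝ => 1 + a) 1 r := (hasDerivAt_id r).const_add 1
  have hQ := hS.div h1r hr1.ne'
  have hR := hS.div ((h1r.pow 2).const_mul 3) (show (3 : ℝ) * ((1 + r) ^ 2) ≠ 0 by positivity)
  have hT := (hS.neg).sub ((((hS.neg).sub (hA.const_mul 2)).sub (hQ.const_mul (8 / 3))).add hR
    |>.const_mul (vv / (4 * Real.pi ^ 2) * 4))
  have hval : r * (psi r / √(1 - r ^ 2)) = -(-((2 : ℕ) * r ^ (2 - 1)) / (2 * √(1 - r ^ 2))) -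
      vv / (4 * Real.pi ^ 2) * 4 * (-(-((2 : ℕ) * r ^ (2 - 1)) / (2 * √(1 - r ^ 2))) -
        2 * (1 / √(1 - r ^ 2)) - 8 / 3 * ((-((2 : ℕ) * r ^ (2 - 1)) / (2 * √(1 - r ^ 2)) * (1 + r) -
          √(1 - r ^ 2) * 1) / (1 + r) ^ 2) +
        ((-((2 : ℕ) * r ^ (2 - 1)) / (2 * √(1 - r ^ 2))) * (3 * (1 + r) ^ 2) -
          √(1 - r ^ 2) * (3 * ((2 : ℕ) * (1 + r) ^ (2 - 1) * 1))) / (3 * (1 + r) ^ 2) ^ 2) := by
    unfold psi
    generalize vv / (4 * Real.pi ^ 2) = κ
    simp only [Nat.cast_ofNat, Nat.add_one_sub_one, pow_one]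
    set c := √(1 - r ^ 2)
    have hne : c ≠ 0 := hs.ne'
    rw [show (κ : ℝ) * 4 * (-(-(2 * r) / (2 * c)) - 2 * (1 / c) - 8 / 3 * ((-(2 * r) / (2 * c) * (1 + r) -
          c * 1) / (1 + r) ^ 2) + ((-(2 * r) / (2 * c)) * (3 * (1 + r) ^ 2) -
          c * (3 * (2 * (1 + r) * 1))) / (3 * (1 + r) ^ 2) ^ 2) =
        κ * 4 * (r / c - 2 / c + 8 / 3 * ((r * (1 + r) + c ^ 2) / (c * (1 + r) ^ 2)) -
          (r * (1 + r) + 2 * c ^ 2) / (3 * c * (1 + r) ^ 3)) by
      field_simp
      ring, hsq]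
    field_simp
    ring
  rw [hval]
  exact hT

theorem PP_cont : ContinuousOn PP (Icc 0 1) := by
  unfold PP
  have h1 : ContinuousOn (fun r : ℝ => √(1 - r ^ 2) / (1 + r)) (Icc 0 1) := by
    apply ContinuousOn.div (by fun_prop) (by fun_prop)
    intro r hr
    linarith [hr.1]
  have h2 : ContinuousOn (fun r : ℝ => √(1 - r ^ 2) / (3 * (1 + r) ^ 2)) (Icc 0 1) := by
    apply ContinuousOn.div (by fun_prop) (by fun_prop)
    intro r hr
    have : 0 < 1 + r := by linarith [hr.1]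
    positivity
  have h3 : ContinuousOn (fun r : ℝ => √(1 - r ^ 2)) (Icc 0 1) := by fun_prop
  have h4 : ContinuousOn (fun r : ℝ => Real.arcsin r) (Icc 0 1) := Real.continuous_arcsin.continuousOn
  exact (h3.neg).sub (continuousOn_const.mul ((((h3.neg).sub (continuousOn_const.mul h4)).sub
    (continuousOn_const.mul h1)).add h2))

theorem PP_diff : PP 1 - PP 0 = 1 - vv / (4 * Real.pi ^ 2) * (40 / 3 - 4 * Real.pi) := by
  unfold PP
  simp
  ring

/-- [FA-RAD] -/
theorem s_RAD : S_RAD := by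
  intro b hb
  rw [← PP_diff] at hb
  -- a radius
  obtain ⟨r0, ⟨hr1, hr2⟩, hr3⟩ : ∃ r0 ∈ Ioo (0 : ℝ) 1, b < PP r0 - PP 0 := by
    have h1 : Tendsto (fun r => PP r - PP 0) (𝓝[Ioo 0 1] 1) (𝓝 (PP 1 - PP 0)) := by
      apply Tendsto.sub_const
      exact (PP_cont 1 (right_mem_Icc.2 zero_le_one)).mono_left (nhdsWithin_mono _ Ioo_subset_Icc_self)
    have h2 := h1.eventually_const_lt hb
    have h3 : (𝓝[Ioo (0 : ℝ) 1] 1).NeBot := by
      rw [nhdsWithin_Ioo_eq_nhdsLT zero_lt_one]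
      infer_instance
    obtain ⟨r0, h4, h5⟩ := (h2.and self_mem_nhdsWithin).exists
    exact ⟨r0, h5, h4⟩
  refine ⟨r0, hr1, hr2, ?_⟩
  -- the function of the radius
  set f : ℝ → ℝ := indicator (Icc 0 r0) (fun r => psi r / √(1 - r ^ 2)) with hf
  have hfc : ContinuousOn (fun r => psi r / √(1 - r ^ 2)) (Icc 0 r0) := by
    apply ContinuousOn.div (psi_cont (fun r hr => hr.1)) (by fun_prop)
    intro r hr
    have : 0 < 1 - r ^ 2 := by nlinarith [hr.1, hr.2]
    exact (Real.sqrt_pos.2 this).ne'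
  have hpos : ∀ r ∈ Icc (0 : ℝ) r0, 0 ≤ psi r / √(1 - r ^ 2) := by
    intro r hr
    have h1 := psi_low hr.1 (hr.2.trans hr2.le)
    exact div_nonneg (by linarith) (Real.sqrt_nonneg _)
  have hf0 : ∀ r, 0 ≤ f r := fun r => indicator_nonneg hpos r
  have hdim : Module.finrank ℝ (E 2) = 2 := by simp [E]
  -- the lintegral
  have h1 : ∫⁻ x in closedBall (0 : E 2) r0, ENNReal.ofReal (psi ‖x‖ / √(1 - ‖x‖ ^ 2)) =
      ∫⁻ x : E 2, ENNReal.ofReal (f ‖x‖) := by
    rw [← lintegral_indicator isClosed_closedBall.measurableSet]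
    congr 1
    funext x
    by_cases hx : x ∈ closedBall (0 : E 2) r0
    · rw [indicator_of_mem hx, hf, indicator_of_mem]
      exact ⟨norm_nonneg x, by simpa using hx⟩
    · rw [indicator_of_notMem hx, hf, indicator_of_notMem, ENNReal.ofReal_zero]
      intro h
      exact hx (by simpa using h.2)
  have hint1 : IntegrableOn (fun y : ℝ => y ^ (Module.finrank ℝ (E 2) - 1) • f y) (Ioi 0) := by
    have h2 : (fun y : ℝ => y ^ (Module.finrank ℝ (E 2) - 1) • f y) =
        indicator (Icc 0 r0) (fun y => y ^ (Module.finrank ℝ (E 2) - 1) • (psi y / √(1 - y ^ 2))) := by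
      funext y
      rw [hf, indicator_smul]
    rw [h2]
    apply Integrable.integrableOn
    rw [integrable_indicator_iff measurableSet_Icc]
    apply ContinuousOn.integrableOn_compact isCompact_Icc
    have h3 : ContinuousOn (fun y : ℝ => y ^ (Module.finrank ℝ (E 2) - 1)) (Icc 0 r0) := by fun_prop
    exact h3.smul hfc
  have hint : Integrable (fun x : E 2 => f ‖x‖) := by
    rw [integrable_fun_norm_addHaar]
    exact hint1
  rw [h1, ← ofReal_integral_eq_lintegral_ofReal hint (Eventually.of_forall fun x => hf0 _),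
    integral_fun_norm_addHaar volume f, hdim]
  apply ENNReal.ofReal_le_ofReal
  have hvol : (volume : Measure (E 2)).real (ball 0 1) = Real.pi := by
    rw [Measure.real, EuclideanSpace.volume_ball_fin_two]
    simp [Real.pi_pos.le]
  have hI : ∫ y in Ioi (0 : ℝ), y ^ (2 - 1) • f y = PP r0 - PP 0 := by
    have h2 : ∫ y in Ioi (0 : ℝ), y ^ (2 - 1) • f y = ∫ y in Ioc (0 : ℝ) r0,
        y * (psi y / √(1 - y ^ 2)) := by
      have h3 : Ioc (0 : ℝ) r0 = Ioi 0 ∩ Iic r0 := Ioi_inter_Iic.symm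
      rw [h3, ← setIntegral_indicator measurableSet_Iic]
      apply setIntegral_congr_fun measurableSet_Ioi
      intro y hy
      simp only [mem_Ioi] at hy
      by_cases hyr : y ≤ r0
      · rw [indicator_of_mem (show y ∈ Iic r0 from hyr)]
        simp only [hf]
        rw [indicator_of_mem (show y ∈ Icc 0 r0 from ⟨hy.le, hyr⟩)]
        simp
      · rw [indicator_of_notMem (show y ∉ Iic r0 from hyr)]
        simp only [hf]
        rw [indicator_of_notMem (fun h => hyr h.2)]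
        simp
    rw [h2, ← intervalIntegral.integral_of_le hr1.le]
    apply intervalIntegral.integral_eq_sub_of_hasDerivAt
    · intro y hy
      rw [uIcc_of_le hr1.le] at hy
      exact PP_deriv hy.1 (hy.2.trans_lt hr2)
    · apply ContinuousOn.intervalIntegrable
      rw [uIcc_of_le hr1.le]
      exact continuousOn_id.mul hfc
  rw [hI, hvol]
  simp only [nsmul_eq_mul, smul_eq_mul, Nat.cast_ofNat]
  have := Real.pi_pos
  nlinarith

end Pool.Agent.L7h22.FA
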